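import Pool.Agent.H.MP_fbbc72_al.h41.Core9

/-! Bound for generalised kernels of `Phi a P`, and the chain theorem. -/

namespace Pool.Agent.BQG

open Module Polynomial

variable {k D : Type*} [Field k] [DivisionRing D] [Algebra k D]

/-- kernel of `Phi b P` over the centralizer of `b` -/
theorem Phi_kernel_bound {b : D} (hb : Transcendental k b) {P : k[X][X]} (hP : P ≠ 0) {δ : ℕ}
    (hδ : ∀ j, (P.coeff j).natDegree ≤ δ) (N : ℕ) (x : Fin N → D)
    (hx : LinearIndependent (cent b) x) (hk : ∀ i, Phi b P (x i) = 0) : N ≤ δ := by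
  classical
  -- coefficients
  let u : ℕ → D := fun i => ∑ j ∈ P.support, (P.coeff j).coeff i • b ^ j
  have hphi : ∀ y : D, Phi b P y = ∑ i ∈ Finset.range (δ + 1), b ^ i * y * u i := by
    intro y
    rw [Phi_apply]
    simp only [u, Finset.mul_sum]
    rw [Finset.sum_comm]
    apply Finset.sum_congr rfl
    intro j _
    have h1 : aeval b (P.coeff j) =
        ∑ i ∈ Finset.range (δ + 1), (P.coeff j).coeff i • b ^ i :=
      aeval_eq_sum_range' (Nat.lt_succ_of_le (hδ j)) b
    rw [h1, Finset.sum_mul, Finset.sum_mul]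
    apply Finset.sum_congr rfl
    intro i _
    rw [smul_mul_assoc, smul_mul_assoc, mul_smul_comm]
  -- some coefficient is nonzero
  have hex : ∃ i, i ≤ δ ∧ u i ≠ 0 := by
    by_contra hcon
    push Not at hcon
    apply hP
    ext j i
    simp only [coeff_zero]
    by_cases hi : i ≤ δ
    · by_contra hne
      have hj : j ∈ P.support := by
        rw [Polynomial.mem_support_iff]
        intro h0
        rw [h0, coeff_zero] at hne
        exact hne rfl
      have h1 := hcon i hi
      have h2 := linearIndependent_iff'.mp (indep_pow hb) P.support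
        (fun j => (P.coeff j).coeff i) h1 j hj
      exact hne h2
    · exact coeff_eq_zero_of_natDegree_lt (lt_of_le_of_lt (hδ j) (by omega))
  let m := Nat.findGreatest (fun i => u i ≠ 0) δ
  obtain ⟨i0, hi0, hui0⟩ := hex
  have hm : u m ≠ 0 := Nat.findGreatest_spec (P := fun i => u i ≠ 0) hi0 hui0
  have hmδ : m ≤ δ := Nat.findGreatest_le δ
  have hgt : ∀ i, m < i → i ≤ δ → u i = 0 := by
    intro i h1 h2
    by_contra h3
    exact absurd (Nat.le_findGreatest (P := fun i => u i ≠ 0) h2 h3) (not_le.mpr h1)
  have h4 : ∀ y : D, Phi b P y = ∑ i ∈ Finset.range (m + 1), b ^ i * y * u i := by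
    intro y
    rw [hphi]
    symm
    apply Finset.sum_subset
    · intro i hi
      rw [Finset.mem_range] at hi ⊢
      omega
    · intro i hi1 hi2
      rw [Finset.mem_range] at hi1 hi2
      rw [hgt i (by omega) (by omega), mul_zero]
  exact (kernel_bound b m u hm N x hx (fun j => by rw [← h4]; exact hk j)).trans hmδ

/-- the division subring `K` as a left `F`-space -/
def subOf (F K : Subfield D) (h : F ≤ K) : Submodule F D where
  carrier := K
  add_mem' := fun ha hb => K.add_mem ha hb
  zero_mem' := K.zero_mem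
  smul_mem' := fun c _ hx => K.mul_mem (h c.2) hx

/-- tower bound -/
theorem tower_bound {F K : Subfield D} (h : F ≤ K) {γ δ : ℕ}
    (hγ : ∀ (N : ℕ) (x : Fin N → D), LinearIndependent F x → (∀ i, x i ∈ K) → N ≤ γ)
    (S : Set D) (hδ : ∀ (N : ℕ) (x : Fin N → D), LinearIndependent K x → (∀ i, x i ∈ S) → N ≤ δ)
    (N : ℕ) (x : Fin N → D) (hx : LinearIndependent F x) (hxS : ∀ i, x i ∈ S) :
    N ≤ δ * γ := by
  classical
  -- `x` spans a finite-dimensional `K`-space
  let T : Set D := Set.range x
  have hTfin : T.Finite := Set.finite_range x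
  have hfd : FiniteDimensional K (Submodule.span K T) := FiniteDimensional.span_of_finite K hTfin
  obtain ⟨M, y, hyT, hyspan, hyi⟩ : ∃ M, ∃ y : Fin M → D, (∀ i, y i ∈ T) ∧
      Submodule.span K (Set.range y) = Submodule.span K T ∧ LinearIndependent K y :=
    ⟨_, Submodule.exists_fun_fin_finrank_span_eq K T⟩
  have hMδ : M ≤ δ := hδ M y hyi (fun i => by
    obtain ⟨j, hj⟩ := hyT i
    rw [← hj]; exact hxS j)
  -- `K` as an `F`-space
  let W := subOf F K h
  have hWfin : Module.Finite F W := by
    apply finite_of_bound γ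
    intro N z hz
    apply hγ N (fun i => (z i : D))
    · exact hz.map' W.subtype (Submodule.ker_subtype W)
    · intro i; exact (z i).2
  have hWrank : finrank F W ≤ γ := by
    have h1 := hγ (finrank F W) (fun i => ((Module.finBasis F W i : W) : D))
      ((Module.finBasis F W).linearIndependent.map' W.subtype (Submodule.ker_subtype W))
      (fun i => (Module.finBasis F W i).2)
    exact h1
  -- the map `W^M → D`
  let f : (Fin M → W) →ₗ[F] D :=
    { toFun := fun c => ∑ s, (c s : D) * y s
      map_add' := by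
        intro c d
        simp only [Pi.add_apply, Submodule.coe_add, add_mul, Finset.sum_add_distrib]
      map_smul' := by
        intro c d
        simp only [Pi.smul_apply, Submodule.coe_smul, RingHom.id_apply, Subfield.smul_def,
          smul_eq_mul, Finset.mul_sum, mul_assoc] }
  have hrange : ∀ i, x i ∈ LinearMap.range f := by
    intro i
    have h1 : x i ∈ Submodule.span K (Set.range y) := by
      rw [hyspan]
      exact Submodule.subset_span ⟨i, rfl⟩
    rw [Submodule.mem_span_range_iff_exists_fun] at h1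
    obtain ⟨c, hc⟩ := h1
    refine ⟨fun s => ⟨(c s : D), (c s).2⟩, ?_⟩
    exact hc
  have hli : LinearIndependent F (fun i => (⟨x i, hrange i⟩ : LinearMap.range f)) := by
    apply LinearIndependent.of_comp (LinearMap.range f).subtype
    exact hx
  have h2 := hli.fintype_card_le_finrank
  have h3 := LinearMap.finrank_range_le f
  rw [Module.finrank_pi_fintype] at h3
  simp only [Finset.sum_const, Finset.card_univ, Fintype.card_fin, smul_eq_mul] at h3
  rw [Fintype.card_fin] at h2
  calc N ≤ _ := h2
    _ ≤ _ := h3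
    _ ≤ δ * γ := Nat.mul_le_mul hMδ hWrank

/-- Generalised kernels of the operators `Phi a P` are finite-dimensional over `k(a)`. -/
theorem Quad.genKernel [Finite k] {V : Submodule k D} {C : ℕ} (h : Quad V C) (hD : ¬ FinCent D)
    {a : D} (ha : Transcendental k a) {P : k[X][X]} (hP : P ≠ 0) :
    ∃ B, ∀ (N : ℕ) (x : Fin N → D), LinearIndependent (gen k a) x →
      (∀ i, ∃ m, ((Phi a P) ^ m) (x i) = 0) → N ≤ B := by
  classical
  have _inst := Fintype.ofFinite k
  obtain ⟨γ, hγ⟩ := h.centBound hD ha
  let δ := P.support.sup (fun j => (P.coeff j).natDegree)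
  have hδ : ∀ j, (P.coeff j).natDegree ≤ δ := by
    intro j
    by_cases hj : j ∈ P.support
    · exact Finset.le_sup (f := fun j => (P.coeff j).natDegree) hj
    · rw [Polynomial.notMem_support_iff.mp hj]
      simp
  refine ⟨δ * γ, fun N x hx hk => ?_⟩
  choose m hm using hk
  -- choose a large power of `q`
  let q := Fintype.card k
  have hq : 1 < q := Fintype.one_lt_card
  let M := Finset.univ.sup m
  have hQ : M ≤ q ^ M := (Nat.lt_pow_self hq).le
  have hQ1 : 1 ≤ q ^ M := Nat.one_le_pow _ _ (by omega)
  have hle : gen k a ≤ cent (a ^ q ^ M) := by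
    apply gen_le_cent
    rw [← pow_succ, ← pow_succ']
  apply tower_bound hle (hγ (q ^ M) hQ1) {y | Phi (a ^ q ^ M) P y = 0} ?_ N x hx ?_
  · intro N' y hy hyk
    exact Phi_kernel_bound (transc_pow ha hQ1) hP hδ N' y hy hyk
  · intro i
    change Phi (a ^ q ^ M) P (x i) = 0
    rw [← Phi_frob]
    have h1 : m i ≤ q ^ M := (Finset.le_sup (f := m) (Finset.mem_univ i)).trans hQ
    obtain ⟨t, ht⟩ := Nat.exists_eq_add_of_le h1
    change ((Phi a P) ^ (q ^ M)) (x i) = 0
    rw [ht, add_comm, pow_add, Module.End.mul_apply, hm i, map_zero]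

end Pool.Agent.BQG
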