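import Pool.Agent.H.MP_fbbc72_al.h41.Core11

/-! Chains of bimodules of linear growth. -/

namespace Pool.Agent.BQG

open Module Polynomial MulOpposite

variable {k D : Type*} [Field k] [DivisionRing D] [Algebra k D]

theorem aeval_mem_gen (a : D) (p : k[X]) : aeval a p ∈ gen k a := by
  induction p using Polynomial.induction_on' with
  | add p q hp hq => rw [map_add]; exact Subfield.add_mem _ hp hq
  | monomial n c =>
    rw [aeval_monomial]
    exact Subfield.mul_mem _ (algebraMap_mem_gen a c) (pow_mem_gen a n)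

theorem aeval_ne_zero {a : D} (ha : Transcendental k a) {p : k[X]} (hp : p ≠ 0) :
    aeval a p ≠ 0 := by
  intro h
  exact ha ⟨p, hp, h⟩

theorem aeval_comm (a : D) (p q : k[X]) : aeval a p * aeval a q = aeval a q * aeval a p :=
  gen_comm (aeval_mem_gen a p) (aeval_mem_gen a q)

/-- elements of `k(a)` are fractions -/
theorem gen_frac {a : D} (ha : Transcendental k a) {f : D} (hf : f ∈ gen k a) :
    ∃ p q : k[X], p ≠ 0 ∧ aeval a p * f = aeval a q := by
  refine Subfield.closure_induction (p := fun f _ => ∃ p q : k[X], p ≠ 0 ∧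
    aeval a p * f = aeval a q) ?_ ?_ ?_ ?_ ?_ ?_ hf
  · intro x hx
    rcases hx with rfl | ⟨c, rfl⟩
    · exact ⟨1, X, one_ne_zero, by simp⟩
    · exact ⟨1, C c, one_ne_zero, by simp⟩
  · exact ⟨1, 1, one_ne_zero, by simp⟩
  · rintro x y _ _ ⟨p, q, hp, hpq⟩ ⟨r, s, hr, hrs⟩
    refine ⟨p * r, r * q + p * s, mul_ne_zero hp hr, ?_⟩
    rw [map_mul, map_add, map_mul, map_mul, mul_add, ← hpq, ← hrs]
    congr 1
    · rw [← mul_assoc, aeval_comm a r p]
    · rw [mul_assoc]
  · rintro x _ ⟨p, q, hp, hpq⟩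
    exact ⟨p, -q, hp, by rw [mul_neg, hpq, map_neg]⟩
  · rintro x _ ⟨p, q, hp, hpq⟩
    by_cases hx : x = 0
    · exact ⟨1, 0, one_ne_zero, by simp [hx]⟩
    · refine ⟨q, p, ?_, ?_⟩
      · rintro rfl
        rw [map_zero] at hpq
        rcases mul_eq_zero.mp hpq with h | h
        · exact aeval_ne_zero ha hp h
        · exact hx h
      · rw [← hpq, mul_assoc, mul_inv_cancel₀ hx, mul_one]
  · rintro x y hx _ ⟨p, q, hp, hpq⟩ ⟨r, s, hr, hrs⟩
    refine ⟨r * p, q * s, mul_ne_zero hr hp, ?_⟩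
    have h1 : aeval a r * (aeval a p * x * y) = aeval a p * x * (aeval a r * y) := by
      have h2 : aeval a r * (aeval a p * x) = (aeval a p * x) * aeval a r :=
        gen_comm (aeval_mem_gen a r) (Subfield.mul_mem _ (aeval_mem_gen a p) hx)
      rw [← mul_assoc, h2, mul_assoc]
    rw [map_mul, map_mul, mul_assoc (aeval a r), ← mul_assoc (aeval a p), h1, hpq, hrs]

theorem gen_frac_fin {a : D} (ha : Transcendental k a) : ∀ (N : ℕ) (f : Fin N → D),
    (∀ i, f i ∈ gen k a) → ∃ p : k[X], p ≠ 0 ∧ ∀ i, ∃ q : k[X], aeval a p * f i = aeval a q := by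
  intro N
  induction N with
  | zero => intro f _; exact ⟨1, one_ne_zero, fun i => i.elim0⟩
  | succ N ih =>
    intro f hf
    obtain ⟨p, hp, hpq⟩ := ih (fun i => f i.succ) (fun i => hf i.succ)
    obtain ⟨r, s, hr, hrs⟩ := gen_frac ha (hf 0)
    refine ⟨p * r, mul_ne_zero hp hr, fun i => ?_⟩
    refine Fin.cases ?_ ?_ i
    · exact ⟨p * s, by rw [map_mul, map_mul, mul_assoc, hrs]⟩
    · intro j
      obtain ⟨q, hq⟩ := hpq j
      exact ⟨r * q, by rw [mul_comm p r, map_mul, map_mul, mul_assoc, hq]⟩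

theorem unop_mem_gen {a : D} {f : Dᵐᵒᵖ} (hf : f ∈ gen k (op a)) : unop f ∈ gen k a := by
  refine Subfield.closure_induction (p := fun f _ => unop f ∈ gen k a) ?_ ?_ ?_ ?_ ?_ ?_ hf
  · intro x hx
    rcases hx with rfl | ⟨c, rfl⟩
    · exact self_mem_gen a
    · exact algebraMap_mem_gen a c
  · exact (gen k a).one_mem
  · intro x y _ _ hx hy; exact (gen k a).add_mem hx hy
  · intro x _ hx; exact (gen k a).neg_mem hx
  · intro x _ hx; exact (gen k a).inv_mem hx
  · intro x y _ _ hx hy; exact (gen k a).mul_mem hy hx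

theorem op_mem_gen {a : D} {f : D} (hf : f ∈ gen k a) : op f ∈ gen k (op a) := by
  refine Subfield.closure_induction (p := fun f _ => op f ∈ gen k (op a)) ?_ ?_ ?_ ?_ ?_ ?_ hf
  · intro x hx
    rcases hx with rfl | ⟨c, rfl⟩
    · exact self_mem_gen (op x)
    · exact algebraMap_mem_gen (op a) c
  · exact (gen k (op a)).one_mem
  · intro x y _ _ hx hy; exact (gen k (op a)).add_mem hx hy
  · intro x _ hx; exact (gen k (op a)).neg_mem hx
  · intro x _ hx; exact (gen k (op a)).inv_mem hx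
  · intro x y _ _ hx hy; exact (gen k (op a)).mul_mem hy hx

/-- a left stable `k`-subspace as a left `F`-subspace -/
def leftSub (F : Subfield D) (E : Submodule k D) (h : ∀ f ∈ F, ∀ x ∈ E, f * x ∈ E) :
    Submodule F D where
  carrier := E
  add_mem' := fun ha hb => E.add_mem ha hb
  zero_mem' := E.zero_mem
  smul_mem' := fun c _ hx => h c c.2 _ hx

theorem mem_leftSub {F : Subfield D} {E : Submodule k D} {h : ∀ f ∈ F, ∀ x ∈ E, f * x ∈ E}
    {x : D} : x ∈ leftSub F E h ↔ x ∈ E := Iff.rfl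

/-- dependence modulo a subspace -/
theorem dep_mod {F : Subfield D} (W W' : Submodule F D) (hW' : Module.Finite F W')
    (hle : W ≤ W') {δ : ℕ} (hrank : finrank F W' ≤ finrank F W + δ) (v : Fin (δ + 1) → D)
    (hv : ∀ j, v j ∈ W') :
    ∃ f : Fin (δ + 1) → D, (∀ j, f j ∈ F) ∧ (∃ j, f j ≠ 0) ∧ ∑ j, f j * v j ∈ W := by
  classical
  let U : Submodule F (D ⧸ W) := W'.map W.mkQ
  have hU : Module.Finite F U := Module.Finite.map _ _
  have hUrank : finrank F U ≤ δ := by
    have h1 := LinearMap.finrank_range_add_finrank_ker (W.mkQ.comp W'.subtype)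
    have h2 : LinearMap.range (W.mkQ.comp W'.subtype) = U := by
      rw [LinearMap.range_comp, Submodule.range_subtype]
    have h3 : LinearMap.ker (W.mkQ.comp W'.subtype) = W.comap W'.subtype := by
      rw [LinearMap.ker_comp, Submodule.ker_mkQ]
    have h4 : finrank F ↥(W.comap W'.subtype) = finrank F W :=
      (Submodule.comapSubtypeEquivOfLe hle).finrank_eq
    rw [h2, h3, h4] at h1
    omega
  have hdep : ¬ LinearIndependent F (fun j : Fin (δ + 1) =>
      (⟨W.mkQ (v j), ⟨v j, hv j, rfl⟩⟩ : U)) := by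
    intro hli
    have h1 := hli.fintype_card_le_finrank
    rw [Fintype.card_fin] at h1
    omega
  rw [Fintype.not_linearIndependent_iff] at hdep
  obtain ⟨g, hg, i0, hi0⟩ := hdep
  refine ⟨fun j => (g j : D), fun j => (g j).2, ⟨i0, fun h0 => hi0 (Subtype.ext h0)⟩, ?_⟩
  have h1 := congrArg Subtype.val hg
  have h2 : W.mkQ (∑ j, g j • v j) = 0 := by
    rw [map_sum]
    refine Eq.trans ?_ h1
    rw [Submodule.coe_sum]
    rfl
  rw [Submodule.mkQ_apply, Submodule.Quotient.mk_eq_zero] at h2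
  exact h2

end Pool.Agent.BQG
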