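import Pool.Agent.H.MP_fbbc72_al.h41.Core13

/-! Opposite algebras, stabilizers, torsion elements. -/

namespace Pool.Agent.BQG

open Module Polynomial MulOpposite

variable {k D : Type*} [Field k] [DivisionRing D] [Algebra k D]

/-- the opposite subspace -/
def opS (V : Submodule k D) : Submodule k Dᵐᵒᵖ :=
  V.map ((opLinearEquiv k : D ≃ₗ[k] Dᵐᵒᵖ) : D →ₗ[k] Dᵐᵒᵖ)

theorem mem_opS {V : Submodule k D} {x : Dᵐᵒᵖ} : x ∈ opS V ↔ unop x ∈ V := by
  constructor
  · rintro ⟨y, hy, rfl⟩
    exact hy
  · intro h
    exact ⟨unop x, h, rfl⟩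

theorem opS_pow (V : Submodule k D) (n : ℕ) : opS (V ^ n) = (opS V) ^ n :=
  Submodule.map_op_pow V n

theorem Quad.opp {V : Submodule k D} {C₀ : ℕ} (h : Quad V C₀) : Quad (opS V) C₀ where
  fg := h.fg.map _
  one := mem_opS.mpr h.one
  growth := by
    intro n hn
    rw [← opS_pow]
    have h1 : finrank k ↥(opS (V ^ n)) = finrank k ↥(V ^ n) :=
      (LinearEquiv.finrank_map_eq (opLinearEquiv k : D ≃ₗ[k] Dᵐᵒᵖ) (V ^ n))
    rw [h1]
    exact h.growth n hn
  frac := by
    intro d
    obtain ⟨m, u, hu, v, hv, hv0, hva⟩ := h.leftFrac (unop d)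
    refine ⟨m, op u, ?_, op v, ?_, ?_, ?_⟩
    · rw [← opS_pow]; exact mem_opS.mpr hu
    · rw [← opS_pow]; exact mem_opS.mpr hv
    · intro h0; exact hv0 (op_injective h0)
    · have h1 : d * op v = op u := by
        rw [← hva]; rfl
      rw [← h1, mul_assoc, mul_inv_cancel₀ (fun h0 => hv0 (op_injective h0)), mul_one]

/-- linear growth over `k(a)`, elementary case `a ∈ R` -/
theorem Quad.linear_mem {V : Submodule k D} {C₀ : ℕ} (h : Quad V C₀) {a : D}
    (ha : Transcendental k a) {e : ℕ} (hae : a ∈ V ^ e) :
    ∀ n N, 1 ≤ n → ∀ y : Fin N → D, LinearIndependent (gen k a) y →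
      (∀ j, y j ∈ V ^ n) → N ≤ C₀ * (e + 1) ^ 2 * n := by
  intro n N hn y hy hyV
  have h1 := h.count ha (w := 1) one_ne_zero (L := n) (H := e * n) (by
    intro i hi
    rw [one_mul]
    exact h.pow_mono (Nat.mul_le_mul_left e hi.le) (Quad.pow_mem hae i)) (by omega) y hy hyV
  have h2 : C₀ * (e * n + n) ^ 2 = n * (C₀ * (e + 1) ^ 2 * n) := by ring
  rw [h2] at h1
  exact Nat.le_of_mul_le_mul_left h1 (by omega)

/-- the rank of the left `F`-space spanned by `V ^ n` -/
theorem Quad.span_rank {V : Submodule k D} {C₀ : ℕ} (h : Quad V C₀) {a : D} {B : ℕ}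
    (hB : ∀ n N, 1 ≤ n → ∀ y : Fin N → D, LinearIndependent (gen k a) y →
      (∀ j, y j ∈ V ^ n) → N ≤ B * n) {n : ℕ} (hn : 1 ≤ n) :
    Module.Finite (gen k a) (Submodule.span (gen k a) ((V ^ n : Submodule k D) : Set D)) ∧
    ∀ (N : ℕ) (y : Fin N → D), LinearIndependent (gen k a) y →
      (∀ j, y j ∈ Submodule.span (gen k a) ((V ^ n : Submodule k D) : Set D)) → N ≤ B * n := by
  classical
  have hfin : Module.Finite (gen k a)
      (Submodule.span (gen k a) ((V ^ n : Submodule k D) : Set D)) := by
    apply Module.Finite.iff_fg.mpr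
    obtain ⟨t, ht⟩ := h.fg.pow n
    refine ⟨t, ?_⟩
    apply le_antisymm
    · apply Submodule.span_mono
      intro x hx
      change x ∈ V ^ n
      rw [← ht]
      exact Submodule.subset_span hx
    · apply Submodule.span_le.mpr
      intro x hx
      change x ∈ V ^ n at hx
      rw [← ht] at hx
      refine Submodule.span_induction (p := fun z _ => z ∈
        Submodule.span (gen k a) (t : Set D)) ?_ ?_ ?_ ?_ hx
      · intro y hy; exact Submodule.subset_span hy
      · exact Submodule.zero_mem _
      · intro x y _ _ hx hy; exact Submodule.add_mem _ hx hy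
      · intro c x _ hx
        have : c • x = (⟨algebraMap k D c, algebraMap_mem_gen a c⟩ : gen k a) • x := by
          rw [Algebra.smul_def]; rfl
        rw [this]
        exact Submodule.smul_mem _ _ hx
  refine ⟨hfin, fun N y hy hyV => ?_⟩
  obtain ⟨f, hf1, -, hf3⟩ := Submodule.exists_fun_fin_finrank_span_eq (gen k a)
    ((V ^ n : Submodule k D) : Set D)
  have h1 := hB n _ hn f hf3 hf1
  have h2 : LinearIndependent (gen k a) (fun j => (⟨y j, hyV j⟩ :
      Submodule.span (gen k a) ((V ^ n : Submodule k D) : Set D))) := by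
    apply LinearIndependent.of_comp (Submodule.subtype _)
    exact hy
  have h3 := h2.fintype_card_le_finrank
  rw [Fintype.card_fin] at h3
  exact h3.trans h1

/-- right stabilizer of a finite-dimensional left `F`-subspace -/
def rstab {F : Subfield D} (W : Submodule F D) (hW : Module.Finite F W) : Subfield D where
  carrier := {x | ∀ w ∈ W, w * x ∈ W}
  mul_mem' := by
    intro x y hx hy w hw
    rw [← mul_assoc]
    exact hy _ (hx w hw)
  one_mem' := by intro w hw; rwa [mul_one]
  add_mem' := by
    intro x y hx hy w hw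
    rw [mul_add]
    exact W.add_mem (hx w hw) (hy w hw)
  zero_mem' := by intro w _; rw [mul_zero]; exact W.zero_mem
  neg_mem' := by
    intro x hx w hw
    rw [mul_neg]
    exact W.neg_mem (hx w hw)
  inv_mem' := by
    intro x hx w hw
    by_cases hx0 : x = 0
    · rw [hx0, inv_zero, mul_zero]; exact W.zero_mem
    · let f : W →ₗ[F] W :=
        { toFun := fun w => ⟨w.1 * x, hx w.1 w.2⟩
          map_add' := by
            intro a b
            ext
            simp [add_mul]
          map_smul' := by
            intro c a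
            ext
            simp only [Submodule.coe_smul, RingHom.id_apply]
            exact smul_mul_assoc c (a : D) x }
      have hf : Function.Injective f := by
        intro a b hab
        have : (a : D) * x = b * x := congrArg Subtype.val hab
        exact Subtype.ext (mul_right_cancel₀ hx0 this)
      obtain ⟨t, ht⟩ := (LinearMap.injective_iff_surjective.mp hf) ⟨w, hw⟩
      have h1 : (t : D) * x = w := congrArg Subtype.val ht
      rw [← h1, mul_assoc, mul_inv_cancel₀ hx0, mul_one]
      exact t.2

theorem mem_rstab {F : Subfield D} {W : Submodule F D} {hW : Module.Finite F W} {x : D} :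
    x ∈ rstab W hW ↔ ∀ w ∈ W, w * x ∈ W := Iff.rfl

/-- right stability under `a` implies right stability under `k(a)` -/
theorem gen_le_rstab {a : D} (W : Submodule (gen k a) D) (hW : Module.Finite (gen k a) W)
    (hr : ∀ w ∈ W, w * a ∈ W) : gen k a ≤ rstab W hW := by
  apply gen_le
  · exact hr
  · intro c w hw
    rw [← Algebra.commutes]
    exact W.smul_mem (⟨_, algebraMap_mem_gen a c⟩ : gen k a) hw

/-- a torsion element satisfies `y a^d ∈ ∑_{j<d} F y a^j` -/
theorem torsion_left {a : D} (ha : Transcendental k a) {P : k[X][X]} (hP : P ≠ 0) {y : D}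
    (hy : Phi a P y = 0) : ∃ d : ℕ, y * a ^ d ∈
      Submodule.span (gen k a) (Set.range (fun j : Fin d => y * a ^ (j : ℕ))) := by
  classical
  let d := P.natDegree
  refine ⟨d, ?_⟩
  have h0 : P.coeff d ≠ 0 := by
    have : P.leadingCoeff ≠ 0 := leadingCoeff_ne_zero.mpr hP
    exact this
  have h1 : Phi a P y = ∑ j ∈ Finset.range (d + 1), aeval a (P.coeff j) * y * a ^ j := by
    conv_lhs => rw [P.as_sum_range]
    rw [map_sum, LinearMap.sum_apply]
    apply Finset.sum_congr rfl
    intro j _
    exact Phi_monomial a j _ y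
  rw [Finset.sum_range_succ, hy] at h1
  have hne := aeval_ne_zero ha h0
  have h2 : y * a ^ d = -((aeval a (P.coeff d))⁻¹ *
      ∑ j ∈ Finset.range d, aeval a (P.coeff j) * y * a ^ j) := by
    have h3 : aeval a (P.coeff d) * y * a ^ d =
        -∑ j ∈ Finset.range d, aeval a (P.coeff j) * y * a ^ j := by
      rw [eq_neg_iff_add_eq_zero, add_comm]
      exact h1.symm
    rw [← mul_neg, ← h3, mul_assoc, inv_mul_cancel_left₀ hne]
  rw [h2]
  apply Submodule.neg_mem
  apply Submodule.smul_mem _ (⟨_, (gen k a).inv_mem (aeval_mem_gen a (P.coeff d))⟩ : gen k a)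
  apply Submodule.sum_mem
  intro j hj
  rw [mul_assoc]
  apply Submodule.smul_mem _ (⟨_, aeval_mem_gen a (P.coeff j)⟩ : gen k a)
  apply Submodule.subset_span
  exact ⟨⟨j, Finset.mem_range.mp hj⟩, rfl⟩

theorem swap_ne_zero {P : k[X][X]} (hP : P ≠ 0) : Bivariate.swap P ≠ 0 := by
  intro h
  apply hP
  have := congrArg Bivariate.swap.symm h
  simpa using this

theorem Phi_op (a : D) (P : k[X][X]) (x : D) :
    Phi (op a) (Bivariate.swap P) (op x) = op (Phi a P x) := by
  induction P using Polynomial.induction_on' with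
  | add P Q hP hQ =>
    rw [map_add, map_add, LinearMap.add_apply, hP, hQ, map_add, LinearMap.add_apply, op_add]
  | monomial n f =>
    induction f using Polynomial.induction_on' with
    | add p q hp hq =>
      rw [map_add (monomial n), map_add, map_add, LinearMap.add_apply, hp, hq, map_add,
        LinearMap.add_apply, op_add]
    | monomial m c =>
      rw [Bivariate.swap_monomial_monomial, Phi_monomial, Phi_monomial, aeval_monomial,
        aeval_monomial]
      apply unop_injective
      simp only [unop_mul, unop_op, unop_pow, unop_op]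
      have h1 : unop ((algebraMap k Dᵐᵒᵖ) c) = algebraMap k D c := rfl
      rw [h1]
      have hc : ∀ z : D, algebraMap k D c * z = z * algebraMap k D c := Algebra.commutes c
      rw [← hc (a ^ n), ← mul_assoc x, ← hc x]
      simp only [mul_assoc]
      rw [← mul_assoc (a ^ m), ← hc, mul_assoc]

end Pool.Agent.BQG
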