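import Pool.Agent.H.MP_fbbc72_al.h41.Core16

/-! The division ring generated by all torsion elements. -/

namespace Pool.Agent.BQG

open Module Polynomial MulOpposite

variable {k D : Type*} [Field k] [DivisionRing D] [Algebra k D]

theorem closure_finite (F : Subfield D) (S : Set D) {z : D}
    (hz : z ∈ Subfield.closure ((F : Set D) ∪ S)) :
    ∃ t : Finset D, (t : Set D) ⊆ S ∧ z ∈ Subfield.closure ((F : Set D) ∪ (t : Set D)) := by
  classical
  have hmono : ∀ {s t : Finset D}, s ⊆ t → Subfield.closure ((F : Set D) ∪ (s : Set D)) ≤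
      Subfield.closure ((F : Set D) ∪ (t : Set D)) := by
    intro s t hst
    apply Subfield.closure_mono
    apply Set.union_subset_union_right
    exact_mod_cast hst
  refine Subfield.closure_induction (p := fun z _ => ∃ t : Finset D, (t : Set D) ⊆ S ∧
    z ∈ Subfield.closure ((F : Set D) ∪ (t : Set D))) ?_ ?_ ?_ ?_ ?_ ?_ hz
  · rintro x (hx | hx)
    · exact ⟨∅, by simp, Subfield.subset_closure (Or.inl hx)⟩
    · exact ⟨{x}, by simpa using hx, Subfield.subset_closure (Or.inr (by simp))⟩
  · exact ⟨∅, by simp, Subfield.one_mem _⟩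
  · rintro x y _ _ ⟨s, hs, hx⟩ ⟨t, ht, hy⟩
    refine ⟨s ∪ t, by simp [hs, ht], Subfield.add_mem _ (hmono Finset.subset_union_left hx)
      (hmono Finset.subset_union_right hy)⟩
  · rintro x _ ⟨s, hs, hx⟩
    exact ⟨s, hs, Subfield.neg_mem _ hx⟩
  · rintro x _ ⟨s, hs, hx⟩
    exact ⟨s, hs, Subfield.inv_mem _ hx⟩
  · rintro x y _ _ ⟨s, hs, hx⟩ ⟨t, ht, hy⟩
    refine ⟨s ∪ t, by simp [hs, ht], Subfield.mul_mem _ (hmono Finset.subset_union_left hx)
      (hmono Finset.subset_union_right hy)⟩

theorem Quad.allTorsion [Finite k] {V : Submodule k D} {C₀ : ℕ} (h : Quad V C₀)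
    (hD : ¬ FinCent D) {a : D} (ha : Transcendental k a) {e : ℕ} (hae : a ∈ V ^ e)
    (N : ℕ) (x : Fin N → D) (hx : LinearIndependent (gen k a) x)
    (hxL : ∀ i, x i ∈ Subfield.closure ((gen k a : Set D) ∪
      {y | (∃ n, y ∈ V ^ n) ∧ ∃ P : k[X][X], P ≠ 0 ∧ Phi a P y = 0})) :
    N ≤ C₀ * (e + 1) ^ 2 := by
  classical
  have h1 := fun i => closure_finite _ _ (hxL i)
  choose t htS hxt using h1
  have hT : ∀ y ∈ Finset.univ.biUnion t, (∃ n, y ∈ V ^ n) ∧
      ∃ P : k[X][X], P ≠ 0 ∧ Phi a P y = 0 := by
    intro y hy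
    obtain ⟨i, -, hi⟩ := Finset.mem_biUnion.mp hy
    exact htS i hi
  refine h.finTorsion hD ha hae (Finset.univ.biUnion t) (fun y hy => (hT y hy).1)
    (fun y hy => (hT y hy).2) N x hx (fun i => ?_)
  refine Subfield.closure_mono ?_ (hxt i)
  apply Set.union_subset_union_right
  intro y hy
  have : y ∈ Finset.univ.biUnion t := Finset.mem_biUnion.mpr ⟨i, Finset.mem_univ _, hy⟩
  exact this

/-- spanning family from a bound on independent families in a division subring -/
theorem spanning_of_bound {F L : Subfield D} (hFL : F ≤ L) (B : ℕ)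
    (hB : ∀ (N : ℕ) (x : Fin N → D), LinearIndependent F x → (∀ i, x i ∈ L) → N ≤ B) :
    ∃ b : Fin B → D, (∀ i, b i ∈ L) ∧ ∀ z ∈ L, ∃ f : Fin B → D, (∀ i, f i ∈ F) ∧
      z = ∑ i, f i * b i := by
  classical
  let M := subOf F L hFL
  have hfin : Module.Finite F M := by
    apply finite_of_bound B
    intro N x hx
    refine hB N (fun i => (x i : D)) ?_ (fun i => (x i).2)
    have := hx.map' M.subtype (by rw [Submodule.ker_subtype])
    exact this
  have hr : finrank F M ≤ B := by
    have e := Module.finBasis F M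
    refine hB _ (fun i => (e i : D)) ?_ (fun i => (e i).2)
    have := e.linearIndependent.map' M.subtype (by rw [Submodule.ker_subtype])
    exact this
  let n := finrank F M
  let e := Module.finBasis F M
  refine ⟨fun i => if hi : (i : ℕ) < n then (e ⟨i, hi⟩ : D) else 0, ?_, ?_⟩
  · intro i
    dsimp only
    split_ifs with hi
    · exact (e ⟨i, hi⟩).2
    · exact L.zero_mem
  · intro z hz
    let z' : M := ⟨z, hz⟩
    have h1 := e.sum_repr z'
    refine ⟨fun i => if hi : (i : ℕ) < n then (e.repr z' ⟨i, hi⟩ : D) else 0, ?_, ?_⟩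
    · intro i
      dsimp only
      split_ifs with hi
      · exact (e.repr z' ⟨i, hi⟩).2
      · exact F.zero_mem
    · have h2 : z = ∑ i : Fin n, (e.repr z' i : D) * (e i : D) := by
        have h3 := congrArg (fun w : M => (w : D)) h1
        simp only [Submodule.coe_sum, Submodule.coe_smul] at h3
        exact h3.symm
      rw [h2]
      have hle : n ≤ B := hr
      let g : ℕ → D := fun j =>
        if hi : j < n then (e.repr z' ⟨j, hi⟩ : D) * (e ⟨j, hi⟩ : D) else 0
      have h4 : ∀ i : Fin B, ((if hi : (i : ℕ) < n then (e.repr z' ⟨i, hi⟩ : D) else 0) *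
          (if hi : (i : ℕ) < n then (e ⟨i, hi⟩ : D) else 0)) = g i := by
        intro i
        simp only [g]
        split_ifs with hi
        · rfl
        · rw [mul_zero]
      have h5 : ∀ i : Fin n, (e.repr z' i : D) * (e i : D) = g i := by
        intro i
        simp only [g]
        rw [dif_pos i.2]
      refine (Finset.sum_congr rfl (fun i _ => h5 i)).trans
        (Eq.trans ?_ (Finset.sum_congr rfl (fun i _ => h4 i)).symm)
      rw [Fin.sum_univ_eq_sum_range g n, Fin.sum_univ_eq_sum_range g B]
      apply Finset.sum_subset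
      · intro j hj
        rw [Finset.mem_range] at hj ⊢
        omega
      · intro j _ hj
        rw [Finset.mem_range] at hj
        simp only [g]
        rw [dif_neg hj]

/-- relations given by coefficient tables -/
theorem exists_Phi_of_table (a y : D) (N : ℕ) (c : Fin N → Fin N → k) (hc : c ≠ 0)
    (hrel : ∑ i, ∑ j, c i j • (a ^ (i : ℕ) * y * a ^ (j : ℕ)) = 0) :
    ∃ P : k[X][X], P ≠ 0 ∧ Phi a P y = 0 := by
  classical
  let P : k[X][X] := ∑ i : Fin N, ∑ j : Fin N, monomial (j : ℕ) (monomial (i : ℕ) (c i j))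
  refine ⟨P, ?_, ?_⟩
  · intro h0
    apply hc
    funext i j
    have h1 : (P.coeff j).coeff i = c i j := by
      simp only [P, finsetSum_coeff, coeff_monomial]
      rw [Finset.sum_eq_single i]
      · rw [Finset.sum_eq_single j]
        · simp
        · intro b _ hb
          have : (b : ℕ) ≠ (j : ℕ) := fun h => hb (Fin.ext h)
          simp [this]
        · simp
      · intro b _ hb
        apply Finset.sum_eq_zero
        intro l _
        have : (b : ℕ) ≠ (i : ℕ) := fun h => hb (Fin.ext h)
        split_ifs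
        · rw [coeff_monomial, if_neg this]
        · simp
      · simp
    rw [h0] at h1
    simpa using h1.symm
  · simp only [P, map_sum, LinearMap.sum_apply]
    rw [← hrel]
    apply Finset.sum_congr rfl
    intro i _
    apply Finset.sum_congr rfl
    intro j _
    rw [Phi_monomial, aeval_monomial, Algebra.smul_def]
    simp only [mul_assoc]

end Pool.Agent.BQG
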