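import Mathlib

/-!
Bounded bidegree elements of a saturated ideal of `k[X][Y]` (Gauss lemma), and finiteness of the
set of polynomials of bounded bidegree over a finite field.
-/

namespace Pool.Agent.BQG

open Polynomial

theorem bideg_coeff_swap {k : Type*} [CommSemiring k] (P : k[X][X]) (i j : ℕ) :
    ((Bivariate.swap P).coeff i).coeff j = (P.coeff j).coeff i := by
  induction P using Polynomial.induction_on' with
  | add p q hp hq => rw [map_add, coeff_add, coeff_add, coeff_add, coeff_add, hp, hq]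
  | monomial n a =>
    induction a using Polynomial.induction_on' with
    | add p q hp hq =>
      rw [map_add (monomial n), map_add, coeff_add, coeff_add, coeff_add, coeff_add, hp, hq]
    | monomial m r =>
      rw [Bivariate.swap_monomial_monomial, coeff_monomial, coeff_monomial]
      by_cases h1 : m = i
      · by_cases h2 : n = j
        · subst h1
          subst h2
          simp
        · rw [if_pos h1, if_neg h2, coeff_monomial, if_neg h2, coeff_zero]
      · by_cases h2 : n = j
        · rw [if_neg h1, if_pos h2, coeff_monomial, if_neg h1, coeff_zero]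
        · rw [if_neg h1, if_neg h2, coeff_zero, coeff_zero]

theorem bideg_iff {k : Type*} [CommSemiring k] (P : k[X][X]) (δ : ℕ) :
    (∀ j, (P.coeff j).natDegree ≤ δ) ↔ (Bivariate.swap P).natDegree ≤ δ := by
  rw [natDegree_le_iff_coeff_eq_zero]
  constructor
  · intro h N hN
    ext j
    rw [bideg_coeff_swap, coeff_zero]
    exact (natDegree_le_iff_coeff_eq_zero.1 (h j)) N hN
  · intro h j
    rw [natDegree_le_iff_coeff_eq_zero]
    intro N hN
    rw [← bideg_coeff_swap, h N hN, coeff_zero]

theorem exists_bounded {k : Type*} [Field k] (I : Ideal k[X][X])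
    (hsat : ∀ (p : k[X]) (P : k[X][X]), p ≠ 0 → C p * P ∈ I → P ∈ I)
    (Q₁ Q₂ : k[X][X]) (h₁ : Q₁ ∈ I) (h₁' : Q₁ ≠ 0) (h₂ : Q₂ ∈ I) (h₂' : Q₂ ≠ 0)
    (δ : ℕ) (d₁ : Q₁.natDegree ≤ δ) (d₂ : ∀ j, (Q₂.coeff j).natDegree ≤ δ) :
    ∃ P ∈ I, P ≠ 0 ∧ P.natDegree ≤ δ ∧ ∀ j, (P.coeff j).natDegree ≤ δ := by
  classical
  obtain ⟨P0, ⟨hP0I, hP0⟩, hmin⟩ := WellFounded.has_min (measure (natDegree (R := k[X]))).wf
    {P | P ∈ I ∧ P ≠ 0} ⟨Q₁, h₁, h₁'⟩
  have hmin' : ∀ Q ∈ I, Q ≠ 0 → P0.natDegree ≤ Q.natDegree := by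
    intro Q hQ hQ0
    by_contra hcon
    exact hmin Q ⟨hQ, hQ0⟩ (not_le.1 hcon)
  let _ : NormalizedGCDMonoid k[X] := Nonempty.some inferInstance
  obtain ⟨P, hP⟩ : ∃ P, P = P0.primPart := ⟨_, rfl⟩
  have hPne : P ≠ 0 := by rw [hP]; exact primPart_ne_zero P0
  have hprim : P.IsPrimitive := by rw [hP]; exact isPrimitive_primPart P0
  have hdeg : P.natDegree = P0.natDegree := by rw [hP]; exact natDegree_primPart P0
  have hPI : P ∈ I := by
    refine hsat P0.content P ?_ ?_
    · rw [Ne, content_eq_zero_iff]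
      exact hP0
    · rw [hP, ← eq_C_content_mul_primPart]
      exact hP0I
  refine ⟨P, hPI, hPne, ?_, ?_⟩
  · rw [hdeg]
    exact (hmin' Q₁ h₁ h₁').trans d₁
  · have hinj : Function.Injective (algebraMap k[X] (FractionRing k[X])) :=
      IsFractionRing.injective _ _
    have hdvd : P ∣ Q₂ := by
      refine hprim.dvd_of_fraction_map_dvd_fraction_map (K := FractionRing k[X]) ?_
      rw [← EuclideanDomain.mod_eq_zero]
      by_contra hr
      obtain ⟨b, hb, hbq⟩ := IsLocalization.integerNormalization_spec (nonZeroDivisors k[X])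
        (Q₂.map (algebraMap k[X] (FractionRing k[X])) / P.map (algebraMap k[X] (FractionRing k[X])))
      generalize hG : IsLocalization.integerNormalization (nonZeroDivisors k[X])
        (Q₂.map (algebraMap k[X] (FractionRing k[X])) /
          P.map (algebraMap k[X] (FractionRing k[X]))) = G at hbq
      have hb0 : b ≠ 0 := nonZeroDivisors.ne_zero hb
      have hB : (C b * Q₂ - G * P).map (algebraMap k[X] (FractionRing k[X])) =
          b • (Q₂.map (algebraMap k[X] (FractionRing k[X])) %
            P.map (algebraMap k[X] (FractionRing k[X]))) := by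
        rw [Polynomial.map_sub, Polynomial.map_mul, Polynomial.map_mul, hbq, map_C,
          EuclideanDomain.mod_eq_sub_mul_div, smul_sub, smul_mul_assoc, mul_comm (_ / _),
          Algebra.smul_def b (Q₂.map _)]
        rfl
      have hBne : C b * Q₂ - G * P ≠ 0 := by
        intro h0
        rw [h0, Polynomial.map_zero] at hB
        rcases smul_eq_zero.1 hB.symm with h | h
        · exact hb0 h
        · exact hr h
      have hBI : C b * Q₂ - G * P ∈ I :=
        I.sub_mem (I.mul_mem_left _ h₂) (I.mul_mem_left _ hPI)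
      have h3 := hmin' _ hBI hBne
      rw [← natDegree_map_eq_of_injective hinj (C b * Q₂ - G * P), hB, ← hdeg,
        ← natDegree_map_eq_of_injective hinj P] at h3
      have h4 : (b • (Q₂.map (algebraMap k[X] (FractionRing k[X])) %
            P.map (algebraMap k[X] (FractionRing k[X])))).natDegree ≤
          (Q₂.map (algebraMap k[X] (FractionRing k[X])) %
            P.map (algebraMap k[X] (FractionRing k[X]))).natDegree := natDegree_smul_le _ _
      have h5 : (Q₂.map (algebraMap k[X] (FractionRing k[X])) %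
            P.map (algebraMap k[X] (FractionRing k[X]))).natDegree <
          (P.map (algebraMap k[X] (FractionRing k[X]))).natDegree := by
        refine natDegree_lt_natDegree hr (degree_mod_lt _ ?_)
        rw [Ne, Polynomial.map_eq_zero_iff hinj]
        exact hPne
      omega
    obtain ⟨A, hA⟩ := hdvd
    have hPs : Bivariate.swap P ≠ 0 := by
      rw [Ne, EmbeddingLike.map_eq_zero_iff]
      exact hPne
    have hAs : Bivariate.swap A ≠ 0 := by
      rw [Ne, EmbeddingLike.map_eq_zero_iff]
      rintro rfl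
      rw [mul_zero] at hA
      exact h₂' hA
    rw [bideg_iff] at d₂ ⊢
    rw [hA, map_mul, natDegree_mul hPs hAs] at d₂
    omega

theorem finite_bounded (k : Type*) [Field k] [Finite k] (δ : ℕ) :
    {P : k[X][X] | P.natDegree ≤ δ ∧ ∀ j, (P.coeff j).natDegree ≤ δ}.Finite := by
  refine Set.Finite.of_injOn (t := Set.univ)
    (f := fun (P : k[X][X]) (i j : Fin (δ + 1)) => (P.coeff i).coeff j)
    (fun _ _ => Set.mem_univ _) ?_ Set.finite_univ
  rintro P ⟨hP1, hP2⟩ Q ⟨hQ1, hQ2⟩ h
  ext n m
  by_cases hn : n ≤ δ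
  · by_cases hm : m ≤ δ
    · exact congrFun (congrFun h ⟨n, Nat.lt_succ_of_le hn⟩) ⟨m, Nat.lt_succ_of_le hm⟩
    · rw [coeff_eq_zero_of_natDegree_lt (lt_of_le_of_lt (hP2 n) (not_le.1 hm)),
        coeff_eq_zero_of_natDegree_lt (lt_of_le_of_lt (hQ2 n) (not_le.1 hm))]
  · rw [coeff_eq_zero_of_natDegree_lt (lt_of_le_of_lt hP1 (not_le.1 hn)),
      coeff_eq_zero_of_natDegree_lt (lt_of_le_of_lt hQ1 (not_le.1 hn))]

end Pool.Agent.BQG
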