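import Mathlib

/-! Division algebras generated by a space of quadratic growth: basic facts. -/

namespace Pool.Agent.BQG

open Module

variable {k D : Type*} [Field k] [DivisionRing D] [Algebra k D]

/-- `V` is a finite-dimensional space of quadratic growth whose algebra has quotient
division ring `D`. -/
structure Quad (V : Submodule k D) (C : ℕ) : Prop where
  fg : V.FG
  one : (1 : D) ∈ V
  growth : ∀ n : ℕ, 1 ≤ n → finrank k ↥(V ^ n) ≤ C * n ^ 2
  frac : ∀ d : D, ∃ n : ℕ, ∃ u ∈ V ^ n, ∃ v ∈ V ^ n, v ≠ 0 ∧ d = u * v⁻¹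

/-- finite-dimensional over the centre -/
def FinCent (D : Type*) [DivisionRing D] : Prop := Module.Finite (Subring.center D) D

theorem Quad.pow_mono {V : Submodule k D} {C : ℕ} (h : Quad V C) {m n : ℕ} (hmn : m ≤ n) :
    V ^ m ≤ V ^ n := by
  have h1 : (1 : Submodule k D) ≤ V := by
    rw [Submodule.one_le]; exact h.one
  exact pow_le_pow_right' h1 hmn

theorem Quad.mul_mem {V : Submodule k D} {m n : ℕ} {x y : D}
    (hx : x ∈ V ^ m) (hy : y ∈ V ^ n) : x * y ∈ V ^ (m + n) := by
  rw [pow_add]; exact Submodule.mul_mem_mul hx hy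

theorem Quad.pow_mem {V : Submodule k D} {m : ℕ} {x : D}
    (hx : x ∈ V ^ m) (i : ℕ) : x ^ i ∈ V ^ (m * i) := by
  rw [pow_mul]; exact Submodule.pow_mem_pow _ hx i

theorem Quad.fin_pow {V : Submodule k D} {C : ℕ} (h : Quad V C) (n : ℕ) :
    FiniteDimensional k ↥(V ^ n) := by
  have : (V ^ n).FG := h.fg.pow n
  exact Module.Finite.iff_fg.mpr this

theorem Quad.one_mem_pow {V : Submodule k D} {C : ℕ} (h : Quad V C) (n : ℕ) :
    (1 : D) ∈ V ^ n := by
  have := h.pow_mono (Nat.zero_le n)
  apply this
  rw [pow_zero]; exact Submodule.one_le.mp le_rfl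

/-- counting: independent families in `V ^ n`. -/
theorem Quad.card_le {V : Submodule k D} {C : ℕ} (h : Quad V C) {n : ℕ} (hn : 1 ≤ n)
    {ι : Type*} [Fintype ι] (x : ι → D) (hx : LinearIndependent k x) (hm : ∀ i, x i ∈ V ^ n) :
    Fintype.card ι ≤ C * n ^ 2 := by
  have := h.fin_pow n
  have h1 : LinearIndependent k (fun i => (⟨x i, hm i⟩ : ↥(V ^ n))) := by
    apply LinearIndependent.of_comp (V ^ n).subtype
    exact hx
  exact (h1.fintype_card_le_finrank).trans (h.growth n hn)

/-- a nonzero finite-dimensional left `K`-subspace stable under right multiplication by `V`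
is everything. -/
theorem Quad.eq_top {V : Submodule k D} {C : ℕ} (h : Quad V C) (K : Subfield D)
    (S : Submodule K D) [FiniteDimensional K S] (hS : S ≠ ⊥)
    (hst : ∀ s ∈ S, ∀ v ∈ V, s * v ∈ S) : S = ⊤ := by
  have hst' : ∀ n : ℕ, ∀ v ∈ V ^ n, ∀ s ∈ S, s * v ∈ S := by
    intro n
    induction n with
    | zero =>
      intro v hv s hs
      rw [pow_zero, Submodule.mem_one] at hv
      obtain ⟨c, rfl⟩ := hv
      by_cases hc : c = 0
      · simp [hc]
      · obtain ⟨w, hw⟩ : ∃ w : D, w = algebraMap k D c := ⟨_, rfl⟩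
        have h2 := hst s hs (c • (1 : D)) (V.smul_mem _ h.one)
        rwa [Algebra.smul_def, mul_one] at h2
    | succ n ih =>
      intro v hv
      rw [pow_succ] at hv
      refine Submodule.mul_induction_on hv ?_ ?_
      · intro x hx y hy s hs
        rw [← mul_assoc]
        exact hst _ (ih x hx s hs) y hy
      · intro x y hx hy s hs
        rw [mul_add]
        exact S.add_mem (hx s hs) (hy s hs)
  have hinv : ∀ n : ℕ, ∀ v ∈ V ^ n, v ≠ 0 → ∀ s ∈ S, s * v⁻¹ ∈ S := by
    intro n v hv hv0 s hs
    let f : S →ₗ[K] S :=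
      { toFun := fun s => ⟨s.1 * v, hst' n v hv s.1 s.2⟩
        map_add' := fun a b => by ext; simp [add_mul]
        map_smul' := fun c a => by
          ext
          simp only [Submodule.coe_smul, RingHom.id_apply]
          exact smul_mul_assoc c (a : D) v }
    have hf : Function.Injective f := by
      intro a b hab
      have : (a : D) * v = b * v := congrArg Subtype.val hab
      exact Subtype.ext (mul_right_cancel₀ hv0 this)
    obtain ⟨t, ht⟩ := (LinearMap.injective_iff_surjective.mp hf) ⟨s, hs⟩
    have h1 : (t : D) * v = s := congrArg Subtype.val ht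
    rw [← h1, mul_assoc, mul_inv_cancel₀ hv0, mul_one]
    exact t.2
  have hall : ∀ d : D, ∀ s ∈ S, s * d ∈ S := by
    intro d s hs
    obtain ⟨n, u, hu, v, hv, hv0, rfl⟩ := h.frac d
    rw [← mul_assoc]
    exact hinv n v hv hv0 _ (hst' n u hu s hs)
  obtain ⟨s, hs, hs0⟩ := Submodule.exists_mem_ne_zero_of_ne_bot hS
  rw [eq_top_iff]
  intro d _
  have := hall (s⁻¹ * d) s hs
  rwa [← mul_assoc, mul_inv_cancel₀ hs0, one_mul] at this

/-- Growth over a division subring of infinite codimension is at least linear. -/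
theorem Quad.exists_indep {V : Submodule k D} {C : ℕ} (h : Quad V C) (K : Subfield D)
    (hkK : ∀ c : k, algebraMap k D c ∈ K)
    (hK : ¬ Module.Finite K D) (v : D) (hv : v ≠ 0) (n : ℕ) :
    ∃ z : Fin (n + 1) → D, (∀ j, z j ∈ V ^ n) ∧ LinearIndependent K (fun j => v * z j) := by
  classical
  let W : ℕ → Set D := fun n => (fun z => v * z) '' ((V ^ n : Submodule k D) : Set D)
  let S : ℕ → Submodule K D := fun n => Submodule.span K (W n)
  have hmono : ∀ n, S n ≤ S (n + 1) := by
    intro n
    apply Submodule.span_mono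
    apply Set.image_mono
    exact h.pow_mono (Nat.le_succ n)
  have hfg : ∀ n, (S n).FG := by
    intro n
    obtain ⟨t, ht⟩ := h.fg.pow n
    refine ⟨t.image (fun z => v * z), ?_⟩
    apply le_antisymm
    · apply Submodule.span_mono
      rintro _ hx
      simp only [Finset.coe_image, Set.mem_image, Finset.mem_coe] at hx
      obtain ⟨z, hz, rfl⟩ := hx
      refine ⟨z, ?_, rfl⟩
      rw [← ht]
      exact Submodule.subset_span hz
    · apply Submodule.span_le.mpr
      rintro _ ⟨z, hz, rfl⟩
      change z ∈ V ^ n at hz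
      rw [← ht] at hz
      refine Submodule.span_induction (p := fun z _ => v * z ∈
        Submodule.span K ((t.image (fun z => v * z) : Finset D) : Set D)) ?_ ?_ ?_ ?_ hz
      · intro x hx
        apply Submodule.subset_span
        simp only [Finset.coe_image, Set.mem_image, Finset.mem_coe]
        exact ⟨x, hx, rfl⟩
      · simp
      · intro x y _ _ hx hy
        rw [mul_add]; exact Submodule.add_mem _ hx hy
      · intro c x _ hx
        have : v * (c • x) = (⟨algebraMap k D c, hkK c⟩ : K) • (v * x) := by
          rw [mul_smul_comm, Algebra.smul_def]; rfl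
        rw [this]
        exact Submodule.smul_mem _ _ hx
  have hfin : ∀ n, FiniteDimensional K (S n) := fun n => Module.Finite.iff_fg.mpr (hfg n)
  have hv0 : ∀ n, v ∈ S n := by
    intro n
    apply Submodule.subset_span
    exact ⟨1, h.one_mem_pow n, mul_one v⟩
  have hne : ∀ n, S n ≠ S (n + 1) := by
    intro n heq
    have h1 : S n = ⊤ := by
      have := hfin n
      apply h.eq_top K (S n)
      · intro hb
        have := hv0 n
        rw [hb, Submodule.mem_bot] at this
        exact hv this
      · intro s hs w hw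
        rw [heq]
        refine Submodule.span_induction (p := fun s _ => s * w ∈ S (n + 1)) ?_ ?_ ?_ ?_ hs
        · rintro _ ⟨z, hz, rfl⟩
          apply Submodule.subset_span
          refine ⟨z * w, ?_, (mul_assoc _ _ _).symm⟩
          change z * w ∈ V ^ (n + 1)
          rw [pow_succ]
          exact Submodule.mul_mem_mul hz hw
        · simp
        · intro x y _ _ hx hy
          rw [add_mul]; exact Submodule.add_mem _ hx hy
        · intro c x _ hx
          rw [smul_mul_assoc]
          exact Submodule.smul_mem _ _ hx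
    apply hK
    rw [Module.finite_def, ← h1]
    exact hfg n
  have hrank : ∀ n, n + 1 ≤ finrank K (S n) := by
    intro n
    induction n with
    | zero =>
      have := hfin 0
      have h1 : (⟨v, hv0 0⟩ : S 0) ≠ 0 := by
        intro h0
        exact hv (congrArg Subtype.val h0)
      have h2 : Nontrivial (S 0) := ⟨⟨_, _, h1⟩⟩
      exact Module.finrank_pos
    | succ n ih =>
      have := hfin (n + 1)
      have := Submodule.finrank_lt_finrank_of_lt (lt_of_le_of_ne (hmono n) (hne n))
      omega
  have := hfin n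
  obtain ⟨f, hf1, -, hf3⟩ := Submodule.exists_fun_fin_finrank_span_eq K (W n)
  have hle : n + 1 ≤ finrank K (Submodule.span K (W n)) := hrank n
  choose z hz1 hz2 using fun j : Fin (n + 1) => hf1 (Fin.castLE hle j)
  refine ⟨z, hz1, ?_⟩
  have h4 := hf3.comp (Fin.castLE hle) (Fin.castLE_injective hle)
  have h5 : (fun j => v * z j) = f ∘ Fin.castLE hle := funext hz2
  rw [h5]
  exact h4

/-- transitivity of linear independence for division subrings -/
theorem indep_mul {F K : Subfield D} (hFK : F ≤ K) {ι κ : Type*}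
    (x : ι → D) (hx : LinearIndependent F x) (hxK : ∀ i, x i ∈ K) (y : κ → D)
    (hy : LinearIndependent K y) :
    LinearIndependent F (fun p : ι × κ => x p.1 * y p.2) := by
  classical
  rw [linearIndependent_iff'] at hx hy ⊢
  intro s g hg
  have h1 : ∑ j ∈ s.image Prod.snd, (∑ i ∈ s.image Prod.fst,
      (if (i, j) ∈ s then (g (i, j) : D) else 0) * x i) * y j = 0 := by
    refine Eq.trans ?_ hg
    simp_rw [Finset.sum_mul]
    rw [Finset.sum_comm, ← Finset.sum_product']
    have hsub : s ⊆ (s.image Prod.fst) ×ˢ (s.image Prod.snd) := by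
      intro p hp
      simp only [Finset.mem_product, Finset.mem_image]
      exact ⟨⟨p, hp, rfl⟩, ⟨p, hp, rfl⟩⟩
    rw [← Finset.sum_subset hsub]
    · apply Finset.sum_congr rfl
      intro p hp
      simp only [Prod.mk.eta, hp, if_true]
      rw [mul_assoc]; rfl
    · intro p _ hp
      simp only [Prod.mk.eta, hp, if_false, zero_mul]
  have hmem : ∀ j, (∑ i ∈ s.image Prod.fst,
      (if (i, j) ∈ s then (g (i, j) : D) else 0) * x i) ∈ K := by
    intro j
    apply Subfield.sum_mem
    intro i _
    apply K.mul_mem _ (hxK i)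
    split_ifs
    · exact hFK (g (i, j)).2
    · exact K.zero_mem
  have h2 := hy (s.image Prod.snd) (fun j => ⟨_, hmem j⟩) (by
    simpa [Subfield.smul_def] using h1)
  intro p hp
  have h3 := h2 p.2 (Finset.mem_image_of_mem _ hp)
  have h4 : (∑ i ∈ s.image Prod.fst,
      (if (i, p.2) ∈ s then (g (i, p.2) : D) else 0) * x i) = 0 := congrArg Subtype.val h3
  have h5 := hx (s.image Prod.fst) (fun i => if (i, p.2) ∈ s then g (i, p.2) else 0) (by
    refine Eq.trans ?_ h4
    apply Finset.sum_congr rfl
    intro i _
    split_ifs with h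
    · rfl
    · simp) p.1 (Finset.mem_image_of_mem _ hp)
  simpa [hp] using h5

end Pool.Agent.BQG
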