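import Pool.Agent.H.MP_fbbc72_al.h41.Core10

/-! The chain theorem. -/

namespace Pool.Agent.BQG

open Module Polynomial

variable {k D : Type*} [Field k] [DivisionRing D] [Algebra k D]

theorem chain_indep {F : Subfield D} {E : ℕ → Submodule F D} (hmono : Monotone E) (z : ℕ → D)
    (s : ℕ → ℕ) (hs : ∀ n, s n + 1 ≤ s (n + 1)) (hz : ∀ n, z n ∈ E (s n + 1))
    (hz' : ∀ n, z n ∉ E (s n)) (N : ℕ) : LinearIndependent F (fun j : Fin N => z j) := by
  have hsm : ∀ m n, m < n → s m + 1 ≤ s n := by
    intro m n hmn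
    induction n with
    | zero => omega
    | succ n ih =>
      rcases Nat.lt_succ_iff_lt_or_eq.mp hmn with h | h
      · have := ih h; have := hs n; omega
      · rw [h]; exact hs n
  induction N with
  | zero => exact linearIndependent_empty_type
  | succ N ih =>
    rw [linearIndependent_finSucc']
    refine ⟨ih, ?_⟩
    intro hmem
    have hle : Submodule.span F (Set.range (Fin.init (fun j : Fin (N + 1) => z j))) ≤
        E (s N) := by
      apply Submodule.span_le.mpr
      rintro _ ⟨j, rfl⟩
      exact hmono (hsm j N j.2) (hz j)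
    exact hz' N (hle hmem)

/-- one step: an element of the generalised kernel -/
theorem step_gen {a : D} (Q : k[X][X]) (W : Submodule (gen k a) D)
    (hW : Module.Finite (gen k a) W) (hright : ∀ x ∈ W, x * a ∈ W) {y : D}
    (hyW : Phi a Q y ∈ W) : ∃ e ∈ W, ∃ m, ((Phi a Q) ^ m) (y - e) = 0 := by
  have hgc : gen k a ≤ cent a := gen_le_cent rfl
  have hpow : ∀ j, ∀ x ∈ W, x * a ^ j ∈ W := by
    intro j
    induction j with
    | zero => intro x hx; simpa using hx
    | succ j ih =>
      intro x hx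
      rw [pow_succ, ← mul_assoc]
      exact hright _ (ih x hx)
  have haev : ∀ p : k[X], aeval a p ∈ gen k a := by
    intro p
    induction p using Polynomial.induction_on' with
    | add p q hp hq => rw [map_add]; exact Subfield.add_mem _ hp hq
    | monomial n c =>
      rw [aeval_monomial]
      exact Subfield.mul_mem _ (algebraMap_mem_gen a c) (pow_mem_gen a n)
  have hst : ∀ x ∈ W, Phi a Q x ∈ W := by
    intro x hx
    rw [Phi_apply]
    apply Submodule.sum_mem
    intro j _
    rw [mul_assoc]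
    exact W.smul_mem (⟨_, haev (Q.coeff j)⟩ : gen k a) (hpow j x hx)
  let g : W →ₗ[gen k a] W :=
    { toFun := fun x => ⟨Phi a Q x, hst x x.2⟩
      map_add' := by
        intro x y
        ext
        simp
      map_smul' := by
        intro c x
        ext
        simp only [Submodule.coe_smul, RingHom.id_apply]
        exact Phi_smul a Q (hgc c.2) x }
  have hgpow : ∀ m, ∀ x : W, (((g ^ m) x : W) : D) = ((Phi a Q) ^ m) x := by
    intro m
    induction m with
    | zero => intro x; rfl
    | succ m ih =>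
      intro x
      rw [pow_succ, pow_succ, Module.End.mul_apply, Module.End.mul_apply, ih]
      rfl
  obtain ⟨m, hm⟩ := (g.eventually_isCompl_ker_pow_range_pow.and
    (Filter.eventually_ge_atTop 1)).exists
  obtain ⟨hm1, hm2⟩ := hm
  obtain ⟨m', rfl⟩ := Nat.exists_eq_add_of_le hm2
  have htop := hm1.sup_eq_top
  have hmem : (⟨Phi a Q y, hyW⟩ : W) ∈ LinearMap.ker (g ^ (1 + m')) ⊔
      LinearMap.range (g ^ (1 + m')) := by rw [htop]; exact Submodule.mem_top
  obtain ⟨e1, he1, e2, ⟨e3, he3⟩, he⟩ := Submodule.mem_sup.mp hmem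
  refine ⟨((g ^ m') e3 : W), ((g ^ m') e3 : W).2, (1 + m') + 1, ?_⟩
  rw [pow_succ, Module.End.mul_apply, map_sub]
  have h1 : Phi a Q ((g ^ m') e3 : W) = (e2 : D) := by
    rw [← he3, pow_add, pow_one, Module.End.mul_apply]
    rfl
  have h2 : Phi a Q y = (e1 : D) + e2 := by
    have := congrArg Subtype.val he
    exact this.symm
  rw [h1, h2, add_sub_cancel_right, ← hgpow, LinearMap.mem_ker.mp he1]
  rfl

/-- The chain theorem. -/
theorem Quad.chain [Finite k] {V : Submodule k D} {C : ℕ} (h : Quad V C) {a : D}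
    (ha : Transcendental k a) (δ : ℕ) (E : ℕ → Submodule (gen k a) D) (hmono : Monotone E)
    (hfin : ∀ i, Module.Finite (gen k a) (E i)) (hright : ∀ i, ∀ x ∈ E i, x * a ∈ E i)
    (hinf : ∀ n, ∃ i, n ≤ i ∧ ∃ y ∈ E (i + 1), y ∉ E i ∧ ∃ P : k[X][X], P ≠ 0 ∧
      P.natDegree ≤ δ ∧ (∀ j, (P.coeff j).natDegree ≤ δ) ∧ Phi a P y ∈ E i) : FinCent D := by
  classical
  by_contra hD
  -- the product of all nonzero polynomials of bounded bidegree
  have hfinP : {P : k[X][X] | P ≠ 0 ∧ P.natDegree ≤ δ ∧ ∀ j, (P.coeff j).natDegree ≤ δ}.Finite :=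
    (finite_bounded k δ).subset (fun P hP => hP.2)
  let S := hfinP.toFinset
  let Q : k[X][X] := ∏ P ∈ S, P
  have hQ0 : Q ≠ 0 := by
    apply Finset.prod_ne_zero_iff.mpr
    intro P hP
    exact ((Set.Finite.mem_toFinset hfinP).mp hP).1
  obtain ⟨B, hB⟩ := h.genKernel hD ha hQ0
  have hstep : ∀ n, ∃ i, n ≤ i ∧ ∃ z ∈ E (i + 1), z ∉ E i ∧ ∃ m, ((Phi a Q) ^ m) z = 0 := by
    intro n
    obtain ⟨i, hi, y, hy, hyE, P, hP0, hP1, hP2, hPy⟩ := hinf n
    have hPS : P ∈ S := (Set.Finite.mem_toFinset hfinP).mpr ⟨hP0, hP1, hP2⟩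
    have hQP : Q = (∏ P' ∈ S.erase P, P') * P := (Finset.prod_erase_mul S _ hPS).symm
    have hQy : Phi a Q y ∈ E i := by
      rw [hQP, map_mul, Module.End.mul_apply]
      have hgc : gen k a ≤ cent a := gen_le_cent rfl
      have hpow : ∀ j, ∀ x ∈ E i, x * a ^ j ∈ E i := by
        intro j
        induction j with
        | zero => intro x hx; simpa using hx
        | succ j ih =>
          intro x hx
          rw [pow_succ, ← mul_assoc]
          exact hright i _ (ih x hx)
      rw [Phi_apply]
      apply Submodule.sum_mem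
      intro j _
      rw [mul_assoc]
      have haev : ∀ p : k[X], aeval a p ∈ gen k a := by
        intro p
        induction p using Polynomial.induction_on' with
        | add p q hp hq => rw [map_add]; exact Subfield.add_mem _ hp hq
        | monomial n c =>
          rw [aeval_monomial]
          exact Subfield.mul_mem _ (algebraMap_mem_gen a c) (pow_mem_gen a n)
      exact (E i).smul_mem (⟨_, haev _⟩ : gen k a) (hpow j _ hPy)
    obtain ⟨e, he, m, hm⟩ := step_gen Q (E i) (hfin i) (hright i) hQy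
    refine ⟨i, hi, y - e, Submodule.sub_mem _ hy (hmono (Nat.le_succ i) he), ?_, m, hm⟩
    intro hmem
    apply hyE
    have := Submodule.add_mem _ hmem he
    rwa [sub_add_cancel] at this
  choose f hf1 z0 hz1 hz2 hz3 using hstep
  let s : ℕ → ℕ := fun n => Nat.rec (f 0) (fun _ t => f (t + 1)) n
  have hs : ∀ n, s n + 1 ≤ s (n + 1) := fun n => hf1 (s n + 1)
  let t : ℕ → ℕ := fun n => Nat.rec 0 (fun _ t => f t + 1) n
  have hst : ∀ n, s n = f (t n) := by
    intro n
    induction n with
    | zero => rfl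
    | succ n ih =>
      change f (s n + 1) = f (f (t n) + 1)
      rw [ih]
  have h1 := chain_indep hmono (fun n => z0 (t n)) s hs
    (fun n => by rw [hst]; exact hz1 (t n)) (fun n => by rw [hst]; exact hz2 (t n)) (B + 1)
  have h2 := hB (B + 1) _ h1 (fun i => hz3 (t i))
  omega

end Pool.Agent.BQG
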