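import Pool.Agent.H.MP_fbbc72_al.h41.Core12

/-! Chains of bimodules of linear growth. -/

namespace Pool.Agent.BQG

open Module Polynomial MulOpposite

variable {k D : Type*} [Field k] [DivisionRing D] [Algebra k D]

theorem Phi_C (a : D) (p : k[X]) (x : D) : Phi a (C p) x = aeval a p * x := by
  have h := Phi_monomial a 0 p x
  rw [monomial_zero_left, pow_zero, mul_one] at h
  exact h

theorem Phi_mapC (a : D) (q : k[X]) (x : D) : Phi a (q.map C) x = x * aeval a q := by
  induction q using Polynomial.induction_on' with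
  | add p q hp hq =>
    rw [Polynomial.map_add, map_add, LinearMap.add_apply, hp, hq, map_add, mul_add]
  | monomial n c =>
    rw [map_monomial, Phi_monomial, aeval_C, aeval_monomial, Algebra.commutes c x, mul_assoc]

/-- stability of bimodules -/
theorem Phi_mem {a : D} {E : Submodule k D} (hl : ∀ f ∈ gen k a, ∀ x ∈ E, f * x ∈ E)
    (hr : ∀ f ∈ gen k a, ∀ x ∈ E, x * f ∈ E) (P : k[X][X]) {x : D} (hx : x ∈ E) :
    Phi a P x ∈ E := by
  rw [Phi_apply]
  apply Submodule.sum_mem
  intro j _
  exact hr _ (pow_mem_gen a j) _ (hl _ (aeval_mem_gen a _) _ hx)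

theorem Quad.bimodChain [Finite k] {V : Submodule k D} {C₀ : ℕ} (h : Quad V C₀) {a : D}
    (ha : Transcendental k a) (E : ℕ → Submodule k D) (hmono : Monotone E)
    (hstrict : ∀ n, E n ≠ E (n + 1))
    (hl : ∀ n, ∀ f ∈ gen k a, ∀ x ∈ E n, f * x ∈ E n)
    (hr : ∀ n, ∀ f ∈ gen k a, ∀ x ∈ E n, x * f ∈ E n) (B : ℕ)
    (hL : ∀ n N (x : Fin N → D), LinearIndependent (gen k a) x → (∀ i, x i ∈ E n) →
      N ≤ B * (n + 1))
    (hR : ∀ n N (x : Fin N → D), LinearIndependent (gen k (op a)) (fun i => op (x i)) →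
      (∀ i, x i ∈ E n) → N ≤ B * (n + 1)) : FinCent D := by
  classical
  let El : ℕ → Submodule (gen k a) D := fun n => leftSub (gen k a) (E n) (hl n)
  let Eo : ℕ → Submodule k Dᵐᵒᵖ := fun n => (E n).comap (opLinearEquiv k).symm.toLinearMap
  have hEo : ∀ n, ∀ f ∈ gen k (op a), ∀ x ∈ Eo n, f * x ∈ Eo n := by
    intro n f hf x hx
    exact hr n _ (unop_mem_gen hf) _ hx
  let Er : ℕ → Submodule (gen k (op a)) Dᵐᵒᵖ := fun n => leftSub (gen k (op a)) (Eo n) (hEo n)
  have hElf : ∀ n, Module.Finite (gen k a) (El n) := by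
    intro n
    apply finite_of_bound (B * (n + 1))
    intro N x hx
    exact hL n N (fun i => (x i : D)) (hx.map' (El n).subtype (Submodule.ker_subtype _))
      (fun i => (x i).2)
  have hErf : ∀ n, Module.Finite (gen k (op a)) (Er n) := by
    intro n
    apply finite_of_bound (B * (n + 1))
    intro N x hx
    exact hR n N (fun i => unop (x i : Dᵐᵒᵖ)) (hx.map' (Er n).subtype (Submodule.ker_subtype _))
      (fun i => (x i).2)
  let l : ℕ → ℕ := fun n => finrank (gen k a) (El n)
  let r : ℕ → ℕ := fun n => finrank (gen k (op a)) (Er n)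
  have hlB : ∀ n, l n ≤ B * (n + 1) := by
    intro n
    have := hElf n
    exact hL n _ (fun i => ((Module.finBasis (gen k a) (El n) i : El n) : D))
      ((Module.finBasis (gen k a) (El n)).linearIndependent.map' (El n).subtype
        (Submodule.ker_subtype _)) (fun i => (Module.finBasis (gen k a) (El n) i).2)
  have hrB : ∀ n, r n ≤ B * (n + 1) := by
    intro n
    have := hErf n
    exact hR n _ (fun i => unop ((Module.finBasis (gen k (op a)) (Er n) i : Er n) : Dᵐᵒᵖ))
      ((Module.finBasis (gen k (op a)) (Er n)).linearIndependent.map' (Er n).subtype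
        (Submodule.ker_subtype _)) (fun i => (Module.finBasis (gen k (op a)) (Er n) i).2)
  have hElmono : Monotone El := fun m n hmn x hx => hmono hmn hx
  have hErmono : Monotone Er := fun m n hmn x hx => hmono hmn hx
  have hlm : ∀ n, l n ≤ l (n + 1) := by
    intro n
    have := hElf (n + 1)
    exact Submodule.finrank_mono (hElmono (Nat.le_succ n))
  have hrm : ∀ n, r n ≤ r (n + 1) := by
    intro n
    have := hErf (n + 1)
    exact Submodule.finrank_mono (hErmono (Nat.le_succ n))
  let δ := 2 * B + 1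
  have hex : ∀ n, ∃ i, n ≤ i ∧ l (i + 1) ≤ l i + δ ∧ r (i + 1) ≤ r i + δ := by
    intro n₀
    by_contra hcon
    push Not at hcon
    have h1 : ∀ i, n₀ ≤ i → l i + r i + (2 * B + 2) ≤ l (i + 1) + r (i + 1) := by
      intro i hi
      have h2 := hlm i
      have h3 := hrm i
      by_cases h4 : l (i + 1) ≤ l i + δ
      · have := hcon i hi h4
        simp only [δ] at this h4
        omega
      · simp only [δ] at h4
        omega
    have h2 : ∀ t, (2 * B + 2) * t ≤ l (n₀ + t) + r (n₀ + t) := by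
      intro t
      induction t with
      | zero => simp
      | succ t ih =>
        have := h1 (n₀ + t) (by omega)
        rw [← add_assoc, mul_add, mul_one]
        omega
    have h3 := h2 (B * (n₀ + 1) + 1)
    have h4 := hlB (n₀ + (B * (n₀ + 1) + 1))
    have h5 := hrB (n₀ + (B * (n₀ + 1) + 1))
    nlinarith
  refine h.chain ha δ El hElmono hElf (fun i x hx => hr i a (self_mem_gen a) x hx) ?_
  intro n
  obtain ⟨i, hi, hil, hir⟩ := hex n
  have hlt : E i < E (i + 1) := lt_of_le_of_ne (hmono (Nat.le_succ i)) (hstrict i)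
  obtain ⟨y, hy, hyE⟩ := SetLike.exists_of_lt hlt
  refine ⟨i, hi, y, hy, hyE, ?_⟩
  -- the ideal
  let I : Ideal k[X][X] :=
    { carrier := {P | Phi a P y ∈ E i}
      add_mem' := by
        intro P Q hP hQ
        change Phi a (P + Q) y ∈ E i
        rw [map_add]
        exact (E i).add_mem hP hQ
      zero_mem' := by
        change Phi a 0 y ∈ E i
        rw [map_zero]
        exact (E i).zero_mem
      smul_mem' := by
        intro P Q hQ
        change Phi a (P * Q) y ∈ E i
        rw [map_mul]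
        exact Phi_mem (hl i) (hr i) P hQ }
  have hsat : ∀ (p : k[X]) (P : k[X][X]), p ≠ 0 → C p * P ∈ I → P ∈ I := by
    intro p P hp hP
    change Phi a (C p * P) y ∈ E i at hP
    rw [map_mul, Module.End.mul_apply, Phi_C] at hP
    have h1 := hl i _ ((gen k a).inv_mem (aeval_mem_gen a p)) _ hP
    rwa [← mul_assoc, inv_mul_cancel₀ (aeval_ne_zero ha hp), one_mul] at h1
  -- left dependence
  obtain ⟨Q₁, hQ₁I, hQ₁0, hQ₁d⟩ : ∃ Q₁ ∈ I, Q₁ ≠ 0 ∧ Q₁.natDegree ≤ δ := by
    obtain ⟨f, hfF, ⟨j₀, hj₀⟩, hsum⟩ := dep_mod (El i) (El (i + 1)) (hElf (i + 1))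
      (hElmono (Nat.le_succ i)) hil (fun j : Fin (δ + 1) => y * a ^ (j : ℕ))
      (fun j => hr (i + 1) _ (pow_mem_gen a j) _ hy)
    obtain ⟨p, hp, hq⟩ := gen_frac_fin ha (δ + 1) f hfF
    choose q hq using hq
    refine ⟨∑ j : Fin (δ + 1), monomial (j : ℕ) (q j), ?_, ?_, ?_⟩
    · change Phi a (∑ j : Fin (δ + 1), monomial (j : ℕ) (q j)) y ∈ E i
      have h1 : Phi a (∑ j : Fin (δ + 1), monomial (j : ℕ) (q j)) y =
          aeval a p * ∑ j, f j * (y * a ^ (j : ℕ)) := by
        rw [map_sum, LinearMap.sum_apply, Finset.mul_sum]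
        apply Finset.sum_congr rfl
        intro j _
        rw [Phi_monomial, ← hq j]
        simp only [mul_assoc]
      rw [h1]
      exact hl i _ (aeval_mem_gen a p) _ hsum
    · intro h0
      have h1 : (∑ j : Fin (δ + 1), monomial (j : ℕ) (q j)).coeff j₀ = q j₀ := by
        rw [finsetSum_coeff, Finset.sum_eq_single j₀]
        · rw [coeff_monomial, if_pos rfl]
        · intro b _ hb
          rw [coeff_monomial, if_neg]
          intro h2
          exact hb (Fin.ext h2)
        · intro h2
          exact absurd (Finset.mem_univ _) h2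
      rw [h0, coeff_zero] at h1
      have h2 := hq j₀
      rw [← h1, map_zero] at h2
      rcases mul_eq_zero.mp h2 with h3 | h3
      · exact aeval_ne_zero ha hp h3
      · exact hj₀ h3
    · apply natDegree_sum_le_of_forall_le
      intro j _
      exact (natDegree_monomial_le _).trans (by have := j.2; omega)
  -- right dependence
  obtain ⟨Q₂, hQ₂I, hQ₂0, hQ₂d⟩ : ∃ Q₂ ∈ I, Q₂ ≠ 0 ∧ ∀ j, (Q₂.coeff j).natDegree ≤ δ := by
    obtain ⟨f, hfF, ⟨j₀, hj₀⟩, hsum⟩ := dep_mod (Er i) (Er (i + 1)) (hErf (i + 1))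
      (hErmono (Nat.le_succ i)) hir (fun j : Fin (δ + 1) => op (a ^ (j : ℕ) * y))
      (fun j => hl (i + 1) _ (pow_mem_gen a j) _ hy)
    obtain ⟨p, hp, hq⟩ := gen_frac_fin ha (δ + 1) (fun j => unop (f j))
      (fun j => unop_mem_gen (hfF j))
    choose q hq using hq
    refine ⟨∑ j : Fin (δ + 1), C (X ^ (j : ℕ)) * (q j).map C, ?_, ?_, ?_⟩
    · change Phi a (∑ j : Fin (δ + 1), C (X ^ (j : ℕ)) * (q j).map C) y ∈ E i
      have h1 : Phi a (∑ j : Fin (δ + 1), C (X ^ (j : ℕ)) * (q j).map C) y =
          unop (∑ j, f j * op (a ^ (j : ℕ) * y)) * aeval a p := by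
        rw [map_sum, LinearMap.sum_apply, Finset.unop_sum, Finset.sum_mul]
        apply Finset.sum_congr rfl
        intro j _
        rw [map_mul, Module.End.mul_apply, Phi_mapC, Phi_C, unop_mul, unop_op, ← hq j,
          map_pow, aeval_X, gen_comm (aeval_mem_gen a p) (unop_mem_gen (hfF j))]
        simp only [mul_assoc]
      rw [h1]
      exact hr i _ (aeval_mem_gen a p) _ hsum
    · intro h0
      have hq0 : q j₀ ≠ 0 := by
        intro h1
        have h2 := hq j₀
        rw [h1, map_zero] at h2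
        rcases mul_eq_zero.mp h2 with h3 | h3
        · exact aeval_ne_zero ha hp h3
        · exact hj₀ (unop_injective h3)
      apply hq0
      ext m
      have h1 : ((∑ j : Fin (δ + 1), C (X ^ (j : ℕ)) * (q j).map C).coeff m).coeff j₀ =
          (q j₀).coeff m := by
        rw [finsetSum_coeff, finsetSum_coeff, Finset.sum_eq_single j₀]
        · rw [coeff_C_mul, coeff_map, coeff_mul_C, coeff_X_pow, if_pos rfl, one_mul]
        · intro b _ hb
          rw [coeff_C_mul, coeff_map, coeff_mul_C, coeff_X_pow, if_neg, zero_mul]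
          intro h2
          exact hb (Fin.ext h2.symm)
        · intro h2
          exact absurd (Finset.mem_univ _) h2
      rw [← h1, h0, coeff_zero, coeff_zero, coeff_zero]
    · intro m
      rw [finsetSum_coeff]
      apply natDegree_sum_le_of_forall_le
      intro j _
      rw [coeff_C_mul, coeff_map]
      refine (natDegree_mul_C_le _ _).trans ?_
      rw [natDegree_X_pow]
      have := j.2
      omega
  obtain ⟨P, hPI, hP0, hP1, hP2⟩ := exists_bounded I hsat Q₁ Q₂ hQ₁I hQ₁0 hQ₂I hQ₂0 δ hQ₁d hQ₂d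
  exact ⟨P, hP0, hP1, hP2, hPI⟩

end Pool.Agent.BQG
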