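import Pool.Agent.H.MP_fbbc72_al.h41.Core14

/-! Torsion elements generate a finite-dimensional division ring. -/

namespace Pool.Agent.BQG

open Module Polynomial MulOpposite

variable {k D : Type*} [Field k] [DivisionRing D] [Algebra k D]

theorem finCent_of_op (h : FinCent Dᵐᵒᵖ) : FinCent D := by
  classical
  obtain ⟨s, hs⟩ := Module.finite_def.mp h
  refine Module.finite_def.mpr ⟨s.image unop, ?_⟩
  rw [eq_top_iff]
  intro x _
  have hx : op x ∈ Submodule.span (Subring.center Dᵐᵒᵖ) (s : Set Dᵐᵒᵖ) := by
    rw [hs]; trivial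
  have key : ∀ z ∈ Submodule.span (Subring.center Dᵐᵒᵖ) (s : Set Dᵐᵒᵖ),
      unop z ∈ Submodule.span (Subring.center D) ((s.image unop : Finset D) : Set D) := by
    intro z hz
    refine Submodule.span_induction (p := fun z _ => unop z ∈
      Submodule.span (Subring.center D) ((s.image unop : Finset D) : Set D)) ?_ ?_ ?_ ?_ hz
    · intro y hy
      apply Submodule.subset_span
      rw [Finset.coe_image]
      exact ⟨y, hy, rfl⟩
    · exact Submodule.zero_mem _
    · intro x y _ _ hx hy; exact Submodule.add_mem _ hx hy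
    · intro c y _ hy
      have hc : unop (c : Dᵐᵒᵖ) ∈ Subring.center D := by
        rw [Subring.mem_center_iff]
        intro g
        have h1 := Subring.mem_center_iff.mp c.2 (op g)
        have h2 := congrArg unop h1
        simp only [unop_mul, unop_op] at h2
        exact h2.symm
      have h1 : unop (c • y) = (⟨unop (c : Dᵐᵒᵖ), hc⟩ : Subring.center D) • unop y := by
        change unop ((c : Dᵐᵒᵖ) * y) = unop (c : Dᵐᵒᵖ) * unop y
        rw [unop_mul]
        exact Subring.mem_center_iff.mp hc _
      rw [h1]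
      exact Submodule.smul_mem _ _ hy
  exact key _ hx

theorem torsionBimod {V : Submodule k D} {C₀ : ℕ} (h : Quad V C₀) {a : D}
    (ha : Transcendental k a) {e : ℕ} (hae : a ∈ V ^ e) (t : Finset D)
    (htR : ∀ y ∈ t, ∃ n, y ∈ V ^ n) (ht : ∀ y ∈ t, ∃ P : k[X][X], P ≠ 0 ∧ Phi a P y = 0) :
    ∃ (W : Submodule k D) (e' : ℕ), 1 ≤ e' ∧ (1 : D) ∈ W ∧ (∀ y ∈ t, y ∈ W) ∧
      (∀ f ∈ gen k a, ∀ w ∈ W, f * w ∈ W) ∧ (∀ f ∈ gen k a, ∀ w ∈ W, w * f ∈ W) ∧
      (∀ U : Submodule k D, (1 : D) ∈ U → (∀ y ∈ t, y ∈ U) →
        (∀ f ∈ gen k a, ∀ w ∈ U, f * w ∈ U) → (∀ f ∈ gen k a, ∀ w ∈ U, w * f ∈ U) → W ≤ U) ∧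
      ∀ n, ∀ z ∈ W ^ (n + 1),
        z ∈ Submodule.span (gen k a) ((V ^ (e' * (n + 1)) : Submodule k D) : Set D) := by
  classical
  choose! N hN using htR
  choose! P hP0 hP using ht
  have hd : ∀ y ∈ t, ∃ d : ℕ, y * a ^ d ∈
      Submodule.span (gen k a) (Set.range (fun j : Fin d => y * a ^ (j : ℕ))) := fun y hy =>
    torsion_left ha (hP0 y hy) (hP y hy)
  choose! d hd using hd
  let T : Finset (D × ℕ) := t ×ˢ Finset.range (t.sup d)
  let S : Set D := insert 1 {z | ∃ y ∈ t, ∃ j < d y, z = y * a ^ j}
  let F := gen k a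
  let M : Submodule F D := Submodule.span F S
  have hSfin : S.Finite := by
    apply Set.Finite.insert
    have : {z | ∃ y ∈ t, ∃ j < d y, z = y * a ^ j} =
        ⋃ y ∈ t, (fun j : ℕ => y * a ^ j) '' (Set.Iio (d y)) := by
      ext z
      simp only [Set.mem_ofPred_eq, Set.mem_iUnion, Set.mem_image, Set.mem_Iio, exists_prop]
      constructor
      · rintro ⟨y, hy, j, hj, rfl⟩; exact ⟨y, hy, j, hj, rfl⟩
      · rintro ⟨y, hy, j, hj, rfl⟩; exact ⟨y, hy, j, hj, rfl⟩
    rw [this]
    apply Set.Finite.biUnion t.finite_toSet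
    intro y _
    exact (Set.finite_Iio _).image _
  have hMfin : Module.Finite F M := Module.Finite.span_of_finite F hSfin
  have hMa : ∀ w ∈ M, w * a ∈ M := by
    intro w hw
    refine Submodule.span_induction (p := fun w _ => w * a ∈ M) ?_ ?_ ?_ ?_ hw
    · intro s hs
      rcases hs with rfl | ⟨y, hy, j, hj, rfl⟩
      · rw [one_mul]
        have : a = (⟨a, self_mem_gen a⟩ : F) • (1 : D) := by
          change a = a * 1
          rw [mul_one]
        rw [this]
        exact M.smul_mem _ (Submodule.subset_span (Set.mem_insert _ _))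
      · rw [mul_assoc, ← pow_succ]
        rcases Nat.lt_or_ge (j + 1) (d y) with h1 | h1
        · exact Submodule.subset_span (Set.mem_insert_of_mem _ ⟨y, hy, j + 1, h1, rfl⟩)
        · have : j + 1 = d y := by omega
          rw [this]
          refine Submodule.span_mono ?_ (hd y hy)
          rintro _ ⟨i, rfl⟩
          exact Set.mem_insert_of_mem _ ⟨y, hy, i, i.2, rfl⟩
    · rw [zero_mul]; exact M.zero_mem
    · intro x y _ _ hx hy; rw [add_mul]; exact M.add_mem hx hy
    · intro c x _ hx
      rw [smul_mul_assoc]; exact M.smul_mem c hx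
  have hMr : ∀ f ∈ gen k a, ∀ w ∈ M, w * f ∈ M := by
    intro f hf w hw
    exact gen_le_rstab M hMfin hMa hf w hw
  have h1M : (1 : D) ∈ M := Submodule.subset_span (Set.mem_insert _ _)
  have htM : ∀ y ∈ t, y ∈ M := by
    intro y hy
    by_cases h0 : d y = 0
    · have h1 := hd y hy
      rw [h0] at h1
      have h2 : Set.range (fun j : Fin 0 => y * a ^ (j : ℕ)) = ∅ := Set.range_eq_empty _
      rw [h2, Submodule.span_empty, pow_zero, mul_one, Submodule.mem_bot] at h1
      rw [h1]; exact M.zero_mem
    · exact Submodule.subset_span (Set.mem_insert_of_mem _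
        ⟨y, hy, 0, Nat.pos_of_ne_zero h0, by rw [pow_zero, mul_one]⟩)
  let W : Submodule k D :=
    { carrier := M
      add_mem' := fun ha hb => M.add_mem ha hb
      zero_mem' := M.zero_mem
      smul_mem' := by
        intro c x hx
        have : c • x = (⟨algebraMap k D c, algebraMap_mem_gen a c⟩ : F) • x := by
          rw [Algebra.smul_def]; rfl
        rw [this]
        exact M.smul_mem _ hx }
  have hWM : ∀ x, x ∈ W ↔ x ∈ M := fun x => Iff.rfl
  -- degree bound
  let e' := t.sup N + e * t.sup d + 1
  have hSV : ∀ s ∈ S, s ∈ V ^ e' := by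
    intro s hs
    rcases hs with rfl | ⟨y, hy, j, hj, rfl⟩
    · exact h.one_mem_pow _
    · apply h.pow_mono _ (Quad.mul_mem (hN y hy) (Quad.pow_mem hae j))
      have h1 : N y ≤ t.sup N := Finset.le_sup hy
      have h2 : d y ≤ t.sup d := Finset.le_sup hy
      have h3 : e * j ≤ e * t.sup d := Nat.mul_le_mul_left e (by omega)
      omega
  have hl : ∀ f ∈ gen k a, ∀ w ∈ W, f * w ∈ W := by
    intro f hf w hw
    exact M.smul_mem (⟨f, hf⟩ : F) hw
  have hr : ∀ f ∈ gen k a, ∀ w ∈ W, w * f ∈ W := hMr
  have hrn : ∀ n, ∀ f ∈ gen k a, ∀ w ∈ W ^ (n + 1), w * f ∈ W ^ (n + 1) := by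
    intro n f hf w hw
    rw [pow_succ] at hw ⊢
    refine Submodule.mul_induction_on hw ?_ ?_
    · intro x hx y hy
      rw [mul_assoc]
      exact Submodule.mul_mem_mul hx (hr f hf y hy)
    · intro x y hx hy
      rw [add_mul]; exact Submodule.add_mem _ hx hy
  refine ⟨W, e', by omega, h1M, htM, hl, hr, ?_, ?_⟩
  · intro U h1U htU hlU hrU w hw
    have hw' : w ∈ M := hw
    refine Submodule.span_induction (p := fun w _ => w ∈ U) ?_ ?_ ?_ ?_ hw'
    · intro s hs
      rcases hs with rfl | ⟨y, hy, j, hj, rfl⟩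
      · exact h1U
      · exact hrU _ (pow_mem_gen a j) _ (htU y hy)
    · exact U.zero_mem
    · intro x y _ _ hx hy; exact U.add_mem hx hy
    · intro c x _ hx
      exact hlU c c.2 x hx
  · intro n
    induction n with
    | zero =>
      intro z hz
      rw [zero_add, pow_one] at hz
      have hz' : z ∈ M := hz
      rw [zero_add, mul_one]
      refine Submodule.span_mono ?_ hz'
      intro s hs
      exact hSV s hs
    | succ n ih =>
      intro z hz
      rw [pow_succ] at hz
      refine Submodule.mul_induction_on hz ?_ ?_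
      · intro z' hz' w hw
        have hw' : w ∈ M := hw
        have key : ∀ z' ∈ W ^ (n + 1), z' * w ∈ Submodule.span (gen k a)
            ((V ^ (e' * (n + 1 + 1)) : Submodule k D) : Set D) := by
          refine Submodule.span_induction (p := fun w _ => ∀ z' ∈ W ^ (n + 1),
            z' * w ∈ Submodule.span (gen k a)
            ((V ^ (e' * (n + 1 + 1)) : Submodule k D) : Set D)) ?_ ?_ ?_ ?_ hw'
          · intro s hs z' hz'
            refine Submodule.span_induction (p := fun u _ => u * s ∈ Submodule.span (gen k a)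
              ((V ^ (e' * (n + 1 + 1)) : Submodule k D) : Set D)) ?_ ?_ ?_ ?_ (ih z' hz')
            · intro u hu
              apply Submodule.subset_span
              have h1 := Quad.mul_mem hu (hSV s hs)
              have h2 : e' * (n + 1) + e' = e' * (n + 1 + 1) := by ring
              rw [h2] at h1
              exact h1
            · rw [zero_mul]; exact Submodule.zero_mem _
            · intro x y _ _ hx hy; rw [add_mul x y s]; exact Submodule.add_mem _ hx hy
            · intro c x _ hx
              rw [smul_mul_assoc]; exact Submodule.smul_mem _ c hx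
          · intro z' _; rw [mul_zero]; exact Submodule.zero_mem _
          · intro x y _ _ hx hy z' hz'
            rw [mul_add z' x y]; exact Submodule.add_mem _ (hx z' hz') (hy z' hz')
          · intro c x _ hx z' hz'
            have h1 : z' * (c • x) = (z' * c) * x := by
              rw [mul_assoc]; rfl
            rw [h1]
            exact hx _ (hrn n c c.2 z' hz')
        exact key z' hz'
      · intro x y hx hy; exact Submodule.add_mem _ hx hy

end Pool.Agent.BQG
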