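import Pool.Agent.H.MP_fbbc72_al.h41.Core15

/-! Torsion elements generate a finite-dimensional division ring, second part. -/

namespace Pool.Agent.BQG

open Module Polynomial MulOpposite

variable {k D : Type*} [Field k] [DivisionRing D] [Algebra k D]

theorem transc_op {a : D} (ha : Transcendental k a) : Transcendental k (op a) := by
  rintro ⟨p, hp, h0⟩
  apply ha
  refine ⟨p, hp, ?_⟩
  have h1 : ∀ q : k[X], unop (aeval (op a) q) = aeval a q := by
    intro q
    induction q using Polynomial.induction_on' with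
    | add q r hq hr => rw [map_add, map_add, unop_add, hq, hr]
    | monomial n c =>
      rw [aeval_monomial, aeval_monomial, unop_mul, unop_pow, unop_op]
      exact (Algebra.commutes c (a ^ n)).symm
  rw [← h1, h0, unop_zero]

theorem finite_tower {F L : Subfield D} (h : F ≤ L) {γ : ℕ}
    (hγ : ∀ (N : ℕ) (x : Fin N → D), LinearIndependent F x → (∀ i, x i ∈ L) → N ≤ γ)
    (hf : Module.Finite L D) : Module.Finite F D := by
  apply finite_of_bound (finrank L D * γ)
  intro N x hx
  refine tower_bound h hγ Set.univ ?_ N x hx (fun i => Set.mem_univ _)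
  intro M y hy _
  have := hy.fintype_card_le_finrank
  rwa [Fintype.card_fin] at this

theorem op_pow_mem {W : Submodule k D} {W' : Submodule k Dᵐᵒᵖ} (hW : ∀ w ∈ W, op w ∈ W') (n : ℕ) :
    ∀ x ∈ W ^ n, op x ∈ W' ^ n := by
  intro x hx
  have h1 : op x ∈ opS (W ^ n) := mem_opS.mpr hx
  rw [opS_pow] at h1
  have h2 : opS W ≤ W' := by
    intro y hy
    have := hW _ (mem_opS.mp hy)
    rwa [op_unop] at this
  exact pow_le_pow_left' h2 n h1

theorem Quad.finTorsion [Finite k] {V : Submodule k D} {C₀ : ℕ} (h : Quad V C₀)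
    (hD : ¬ FinCent D) {a : D} (ha : Transcendental k a) {e : ℕ} (hae : a ∈ V ^ e) (t : Finset D)
    (htR : ∀ y ∈ t, ∃ n, y ∈ V ^ n) (ht : ∀ y ∈ t, ∃ P : k[X][X], P ≠ 0 ∧ Phi a P y = 0)
    (N : ℕ) (x : Fin N → D) (hx : LinearIndependent (gen k a) x)
    (hxL : ∀ i, x i ∈ Subfield.closure ((gen k a : Set D) ∪ (t : Set D))) :
    N ≤ C₀ * (e + 1) ^ 2 := by
  classical
  obtain ⟨W, e', he', h1W, htW, hlW, hrW, hWmin, hWg⟩ := torsionBimod h ha hae t htR ht
  have hae' : op a ∈ (opS V) ^ e := by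
    rw [← opS_pow]; exact mem_opS.mpr hae
  obtain ⟨W', e'', he'', h1W', htW', hlW', hrW', -, hWg'⟩ := torsionBimod h.opp (transc_op ha)
    hae' (t.image op) (by
      intro y hy
      obtain ⟨z, hz, rfl⟩ := Finset.mem_image.mp hy
      obtain ⟨n, hn⟩ := htR z hz
      exact ⟨n, by rw [← opS_pow]; exact mem_opS.mpr hn⟩) (by
      intro y hy
      obtain ⟨z, hz, rfl⟩ := Finset.mem_image.mp hy
      obtain ⟨P, hP, hPz⟩ := ht z hz
      exact ⟨Bivariate.swap P, swap_ne_zero hP, by rw [Phi_op, hPz, op_zero]⟩)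
  have hWW' : ∀ w ∈ W, op w ∈ W' := by
    let U : Submodule k D := W'.comap ((opLinearEquiv k : D ≃ₗ[k] Dᵐᵒᵖ) : D →ₗ[k] Dᵐᵒᵖ)
    have hU : ∀ z, z ∈ U ↔ op z ∈ W' := fun z => Iff.rfl
    apply hWmin U
    · exact h1W'
    · intro y hy
      exact htW' _ (Finset.mem_image_of_mem _ hy)
    · intro f hf w hw
      rw [hU, op_mul]
      exact hrW' _ (op_mem_gen hf) _ hw
    · intro f hf w hw
      rw [hU, op_mul]
      exact hlW' _ (op_mem_gen hf) _ hw
  let E : ℕ → Submodule k D := fun n => W ^ (n + 1)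
  have hmono : Monotone E := by
    apply monotone_nat_of_le_succ
    intro n
    have h1 : (1 : Submodule k D) ≤ W := Submodule.one_le.mpr h1W
    exact pow_le_pow_right' h1 (Nat.le_succ _)
  have hlE : ∀ n, ∀ f ∈ gen k a, ∀ x ∈ E n, f * x ∈ E n := by
    intro n f hf x hx
    change x ∈ W ^ (n + 1) at hx
    change f * x ∈ W ^ (n + 1)
    rw [pow_succ'] at hx ⊢
    refine Submodule.mul_induction_on hx ?_ ?_
    · intro x hx y hy
      rw [← mul_assoc]
      exact Submodule.mul_mem_mul (hlW f hf x hx) hy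
    · intro x y hx hy
      rw [mul_add]; exact Submodule.add_mem _ hx hy
  have hrE : ∀ n, ∀ f ∈ gen k a, ∀ x ∈ E n, x * f ∈ E n := by
    intro n f hf w hw
    change w ∈ W ^ (n + 1) at hw
    change w * f ∈ W ^ (n + 1)
    rw [pow_succ] at hw ⊢
    refine Submodule.mul_induction_on hw ?_ ?_
    · intro x hx y hy
      rw [mul_assoc]
      exact Submodule.mul_mem_mul hx (hrW f hf y hy)
    · intro x y hx hy
      rw [add_mul]; exact Submodule.add_mem _ hx hy
  have hspan : ∀ n, ∃ M : Submodule (gen k a) D, Module.Finite (gen k a) M ∧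
      (∀ x ∈ E n, x ∈ M) ∧ ∀ (N : ℕ) (y : Fin N → D), LinearIndependent (gen k a) y →
        (∀ j, y j ∈ M) → N ≤ C₀ * (e + 1) ^ 2 * (e' * (n + 1)) := by
    intro n
    obtain ⟨h1, h2⟩ := h.span_rank (h.linear_mem ha hae) (n := e' * (n + 1))
      (Nat.mul_pos he' (Nat.succ_pos n))
    exact ⟨_, h1, fun x hx => hWg n x hx, h2⟩
  obtain ⟨n, hn⟩ : ∃ n, E n = E (n + 1) := by
    by_contra hcon
    push Not at hcon
    apply hD
    refine h.bimodChain ha E hmono hcon hlE hrE (C₀ * (e + 1) ^ 2 * (e' + e'')) ?_ ?_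
    · intro n N y hy hyE
      obtain ⟨M, -, hM1, hM2⟩ := hspan n
      refine (hM2 N y hy (fun j => hM1 _ (hyE j))).trans ?_
      have : C₀ * (e + 1) ^ 2 * (e' + e'') * (n + 1) =
        C₀ * (e + 1) ^ 2 * (e' * (n + 1)) + C₀ * (e + 1) ^ 2 * (e'' * (n + 1)) := by ring
      omega
    · intro n N y hy hyE
      obtain ⟨h1, h2⟩ := h.opp.span_rank (h.opp.linear_mem (transc_op ha) hae')
        (n := e'' * (n + 1)) (Nat.mul_pos he'' (Nat.succ_pos n))
      refine (h2 N _ hy (fun j => hWg' n _ (op_pow_mem hWW' (n + 1) _ (hyE j)))).trans ?_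
      have : C₀ * (e + 1) ^ 2 * (e' + e'') * (n + 1) =
        C₀ * (e + 1) ^ 2 * (e' * (n + 1)) + C₀ * (e + 1) ^ 2 * (e'' * (n + 1)) := by ring
      omega
  let T : Submodule (gen k a) D := leftSub (gen k a) (E n) (hlE n)
  have hTfin : Module.Finite (gen k a) T := by
    obtain ⟨M, hM0, hM1, -⟩ := hspan n
    have : T ≤ M := fun x hx => hM1 x hx
    exact Submodule.finiteDimensional_of_le this
  have h1T : (1 : D) ∈ T := by
    change (1 : D) ∈ W ^ (n + 1)
    exact Submodule.one_le.mp (one_le_pow_of_one_le' (Submodule.one_le.mpr h1W) _)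
  let L := Subfield.closure ((gen k a : Set D) ∪ (t : Set D))
  have hLst : L ≤ rstab T hTfin := by
    apply Subfield.closure_le.mpr
    rintro z (hz | hz)
    · intro w hw
      exact hrE n z hz w hw
    · intro w hw
      have h1 : w * z ∈ W ^ (n + 1 + 1) := by
        rw [pow_succ]
        exact Submodule.mul_mem_mul hw (htW z hz)
      have h2 : w * z ∈ E (n + 1) := h1
      rw [← hn] at h2
      exact h2
  have hLT : ∀ z ∈ L, z ∈ T := by
    intro z hz
    have := hLst hz 1 h1T
    rwa [one_mul] at this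
  have hFL : gen k a ≤ L := fun z hz => Subfield.subset_closure (Or.inl hz)
  obtain ⟨M, hM0, hM1, hM2⟩ := hspan n
  refine h.bounded_of_not_finite (h.linear_mem ha hae) L hFL ?_ N x hx hxL
  intro hf
  apply hD
  apply finCent_of_comm (gen k a) (gen_commutative a)
  exact finite_tower hFL (fun N y hy hyL => hM2 N y hy (fun j => hM1 _ (hLT _ (hyL j)))) hf

end Pool.Agent.BQG
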