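import Pool.Agent.H.MP_fbbc72_al.h41.Core1

/-! Division subrings generated by one element, centralizers, powers of a transcendental element. -/

namespace Pool.Agent.BQG

open Module

variable {k D : Type*} [Field k] [DivisionRing D] [Algebra k D]

variable (k) in
/-- The division subring `k(a)`. -/
def gen (a : D) : Subfield D := Subfield.closure (insert a (Set.range (algebraMap k D)))

/-- The centralizer of `b`, as a division subring. -/
def cent (b : D) : Subfield D where
  carrier := {x | x * b = b * x}
  mul_mem' := by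
    intro x y hx hy
    change x * y * b = b * (x * y)
    change x * b = b * x at hx
    change y * b = b * y at hy
    rw [mul_assoc, hy, ← mul_assoc, hx, mul_assoc]
  one_mem' := by change 1 * b = b * 1; rw [one_mul, mul_one]
  add_mem' := by
    intro x y hx hy
    change (x + y) * b = b * (x + y)
    change x * b = b * x at hx
    change y * b = b * y at hy
    rw [add_mul, mul_add, hx, hy]
  zero_mem' := by change 0 * b = b * 0; rw [zero_mul, mul_zero]
  neg_mem' := by
    intro x hx
    change -x * b = b * -x
    change x * b = b * x at hx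
    rw [neg_mul, mul_neg, hx]
  inv_mem' := by
    intro x hx
    change x⁻¹ * b = b * x⁻¹
    change x * b = b * x at hx
    by_cases h0 : x = 0
    · simp [h0]
    · rw [eq_comm, eq_inv_mul_iff_mul_eq₀ h0, ← mul_assoc, hx, mul_assoc, mul_inv_cancel₀ h0,
        mul_one]

theorem mem_cent {b x : D} : x ∈ cent b ↔ x * b = b * x := Iff.rfl

theorem algebraMap_mem_cent (b : D) (c : k) : algebraMap k D c ∈ cent b :=
  Algebra.commutes c b

theorem self_mem_gen (a : D) : a ∈ gen k a :=
  Subfield.subset_closure (Set.mem_insert _ _)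

theorem algebraMap_mem_gen (a : D) (c : k) : algebraMap k D c ∈ gen k a :=
  Subfield.subset_closure (Set.mem_insert_of_mem _ ⟨c, rfl⟩)

theorem gen_le {a : D} {K : Subfield D} (ha : a ∈ K) (hk : ∀ c : k, algebraMap k D c ∈ K) :
    gen k a ≤ K := by
  apply Subfield.closure_le.mpr
  intro x hx
  rcases hx with rfl | ⟨c, rfl⟩
  · exact ha
  · exact hk c

theorem gen_le_cent {a b : D} (h : a * b = b * a) : gen k a ≤ cent b :=
  gen_le h (algebraMap_mem_cent b)

theorem gen_comm {a x y : D} (hx : x ∈ gen k a) (hy : y ∈ gen k a) : x * y = y * x := by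
  have h1 : gen k a ≤ cent a := gen_le_cent rfl
  have h2 : a * y = y * a := (h1 hy).symm
  exact (gen_le_cent (k := k) h2) hx

theorem indep_mul_k {K : Subfield D} (hk : ∀ c : k, algebraMap k D c ∈ K) {ι κ : Type*}
    (x : ι → D) (hx : LinearIndependent k x) (hxK : ∀ i, x i ∈ K) (y : κ → D)
    (hy : LinearIndependent K y) :
    LinearIndependent k (fun p : ι × κ => x p.1 * y p.2) := by
  classical
  rw [linearIndependent_iff'] at hx hy ⊢
  intro s g hg
  have h1 : ∑ j ∈ s.image Prod.snd, (∑ i ∈ s.image Prod.fst,
      (if (i, j) ∈ s then g (i, j) else 0) • x i) * y j = 0 := by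
    refine Eq.trans ?_ hg
    simp_rw [Finset.sum_mul]
    rw [Finset.sum_comm, ← Finset.sum_product']
    have hsub : s ⊆ (s.image Prod.fst) ×ˢ (s.image Prod.snd) := by
      intro p hp
      simp only [Finset.mem_product, Finset.mem_image]
      exact ⟨⟨p, hp, rfl⟩, ⟨p, hp, rfl⟩⟩
    rw [← Finset.sum_subset hsub]
    · apply Finset.sum_congr rfl
      intro p hp
      simp only [Prod.mk.eta, hp, if_true]
      rw [smul_mul_assoc]
    · intro p _ hp
      simp only [Prod.mk.eta, hp, if_false, zero_smul, zero_mul]
  have hmem : ∀ j, (∑ i ∈ s.image Prod.fst,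
      (if (i, j) ∈ s then g (i, j) else 0) • x i) ∈ K := by
    intro j
    apply Subfield.sum_mem
    intro i _
    rw [Algebra.smul_def]
    exact K.mul_mem (hk _) (hxK i)
  have h2 := hy (s.image Prod.snd) (fun j => ⟨_, hmem j⟩) (by
    simpa [Subfield.smul_def] using h1)
  intro p hp
  have h3 := h2 p.2 (Finset.mem_image_of_mem _ hp)
  have h4 : (∑ i ∈ s.image Prod.fst,
      (if (i, p.2) ∈ s then g (i, p.2) else 0) • x i) = 0 := congrArg Subtype.val h3
  have h5 := hx (s.image Prod.fst) (fun i => if (i, p.2) ∈ s then g (i, p.2) else 0) h4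
    p.1 (Finset.mem_image_of_mem _ hp)
  simpa [hp] using h5

theorem indep_pow {a : D} (ha : Transcendental k a) :
    LinearIndependent k (fun i : ℕ => a ^ i) := by
  have h1 := (Polynomial.basisMonomials k).linearIndependent
  have h2 := h1.map' (Polynomial.aeval a).toLinearMap
    (LinearMap.ker_eq_bot.mpr (transcendental_iff_injective.mp ha))
  have h3 : (fun i : ℕ => a ^ i) =
      (Polynomial.aeval a).toLinearMap ∘ (Polynomial.basisMonomials k) := by
    ext i
    simp [Polynomial.coe_basisMonomials]
  rw [h3]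
  exact h2

theorem pow_mem_gen (a : D) (i : ℕ) : a ^ i ∈ gen k a := by
  exact pow_mem (self_mem_gen a) i

theorem indep_left_mul {ι : Type*} {w : D} (hw : w ≠ 0) {x : ι → D}
    (hx : LinearIndependent k x) : LinearIndependent k (fun i => w * x i) := by
  have h2 := hx.map' (LinearMap.mulLeft k w) (by
    rw [LinearMap.ker_eq_bot]
    intro a b hab
    exact mul_left_cancel₀ hw hab)
  exact h2

/-- basic counting inequality -/
theorem Quad.count {V : Submodule k D} {C : ℕ} (h : Quad V C) {a : D} (ha : Transcendental k a)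
    {w : D} (hw : w ≠ 0) {L H : ℕ} (hwa : ∀ i < L, w * a ^ i ∈ V ^ H)
    {n N : ℕ} (hn : 1 ≤ H + n) (y : Fin N → D) (hy : LinearIndependent (gen k a) y)
    (hyV : ∀ j, y j ∈ V ^ n) :
    L * N ≤ C * (H + n) ^ 2 := by
  have h1 : LinearIndependent k (fun i : Fin L => a ^ (i : ℕ)) :=
    (indep_pow ha).comp _ Fin.val_injective
  have h2 := indep_mul_k (k := k) (K := gen k a) (algebraMap_mem_gen a) _ h1
    (fun i => pow_mem_gen a i) y hy
  have h3 := indep_left_mul hw h2
  have h4 := h.card_le hn _ h3 (by
    intro p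
    rw [← mul_assoc]
    exact Quad.mul_mem (hwa p.1 p.1.2) (hyV p.2))
  simpa using h4

end Pool.Agent.BQG
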