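import Pool.Agent.H.MP_fbbc72_al.h41.Core2

/-! Kernel bound for operators `x ↦ ∑ b^i x u_i`, centralizers of finite codimension. -/

namespace Pool.Agent.BQG

open Module

/-- finiteness from a bound on independent families -/
theorem finite_of_bound {K M : Type*} [DivisionRing K] [AddCommGroup M] [Module K M] (B : ℕ)
    (h : ∀ (N : ℕ) (x : Fin N → M), LinearIndependent K x → N ≤ B) : Module.Finite K M := by
  rw [← Module.rank_lt_aleph0_iff]
  by_contra hcon
  push Not at hcon
  have h1 : ((B + 1 : ℕ) : Cardinal) ≤ Module.rank K M :=
    le_trans (Cardinal.natCast_le_aleph0) hcon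
  obtain ⟨s, hs, hsi⟩ := le_rank_iff_exists_linearIndependent_finset.mp h1
  have e : Fin (B + 1) ≃ s := (Finset.equivFinOfCardEq hs).symm
  have h2 := h (B + 1) (fun i => ((e i : s) : M)) (by
    have := hsi.comp e e.injective
    exact this)
  omega

/-- long independent families exist in infinite dimension -/
theorem exists_indep_of_not_finite {K M : Type*} [DivisionRing K] [AddCommGroup M] [Module K M]
    (h : ¬ Module.Finite K M) (N : ℕ) : ∃ x : Fin N → M, LinearIndependent K x := by
  by_contra hcon
  apply h
  apply finite_of_bound N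
  intro N' x hx
  by_contra hlt
  push Not at hlt
  exact hcon ⟨fun i => x (Fin.castLE hlt.le i), hx.comp _ (Fin.castLE_injective _)⟩

variable {k D : Type*} [Field k] [DivisionRing D] [Algebra k D]

/-- right multiplication as a left-linear map -/
def rmul (K : Subfield D) (c : D) : D →ₗ[K] D where
  toFun x := x * c
  map_add' x y := add_mul x y c
  map_smul' a x := smul_mul_assoc a x c

@[simp] theorem rmul_apply (K : Subfield D) (c x : D) : rmul K c x = x * c := rfl

theorem rmul_indep (K : Subfield D) {c : D} (hc : c ≠ 0) {ι : Type*} {x : ι → D}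
    (hx : LinearIndependent K x) : LinearIndependent K (fun i => x i * c) := by
  have h2 := hx.map' (rmul K c) (by
    rw [LinearMap.ker_eq_bot]
    intro a b hab
    exact mul_right_cancel₀ hc hab)
  exact h2

theorem telescope (b x : D) (i : ℕ) :
    b ^ i * x - x * b ^ i =
      ∑ l ∈ Finset.range i, b ^ l * (b * x - x * b) * b ^ (i - 1 - l) := by
  induction i with
  | zero => simp
  | succ i ih =>
    rw [Finset.sum_range_succ']
    have h1 : ∑ l ∈ Finset.range i, b ^ (l + 1) * (b * x - x * b) * b ^ (i + 1 - 1 - (l + 1)) =
        b * (b ^ i * x - x * b ^ i) := by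
      rw [ih, Finset.mul_sum]
      apply Finset.sum_congr rfl
      intro l hl
      have : i + 1 - 1 - (l + 1) = i - 1 - l := by omega
      rw [this, pow_succ']
      simp only [mul_assoc]
    rw [h1]
    simp only [pow_zero, one_mul, Nat.sub_zero, Nat.add_sub_cancel]
    rw [pow_succ']
    noncomm_ring

/-- The kernel of `x ↦ ∑_{i ≤ δ} b^i x u_i` has dimension at most `δ` over the centralizer. -/
theorem kernel_bound (b : D) (δ : ℕ) : ∀ (u : ℕ → D), u δ ≠ 0 → ∀ (N : ℕ) (x : Fin N → D),
    LinearIndependent (cent b) x →
    (∀ j, ∑ i ∈ Finset.range (δ + 1), b ^ i * x j * u i = 0) → N ≤ δ := by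
  induction δ with
  | zero =>
    intro u hu N x hx hk
    by_contra hN
    have hpos : 0 < N := by omega
    have h1 := hk ⟨0, hpos⟩
    simp only [zero_add, Finset.range_one, Finset.sum_singleton, pow_zero, one_mul,
      mul_eq_zero, hu, or_false] at h1
    exact hx.ne_zero _ h1
  | succ δ ih =>
    intro u hu N x hx hk
    rcases N with _ | M
    · omega
    have hx0 : x 0 ≠ 0 := hx.ne_zero 0
    -- normalise
    have hx' : LinearIndependent (cent b) (fun j => x j * (x 0)⁻¹) :=
      rmul_indep _ (inv_ne_zero hx0) hx
    set x' : Fin (M + 1) → D := fun j => x j * (x 0)⁻¹ with hx'def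
    set u' : ℕ → D := fun i => x 0 * u i with hu'def
    have hx'0 : x' 0 = 1 := mul_inv_cancel₀ hx0
    have hk' : ∀ j, ∑ i ∈ Finset.range (δ + 2), b ^ i * x' j * u' i = 0 := by
      intro j
      refine Eq.trans ?_ (hk j)
      apply Finset.sum_congr rfl
      intro i _
      simp only [hx'def, hu'def]
      rw [mul_assoc (b ^ i), mul_assoc (x j), inv_mul_cancel_left₀ hx0, ← mul_assoc]
    let u'' : ℕ → D := fun l => ∑ i ∈ Finset.range (δ + 2),
      if l < i then b ^ (i - 1 - l) * u' i else 0
    let w : Fin M → D := fun j => b * x' j.succ - x' j.succ * b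
    have hu'' : u'' δ ≠ 0 := by
      have : u'' δ = x 0 * u (δ + 1) := by
        simp only [u'']
        rw [Finset.sum_eq_single (δ + 1)]
        · simp [hu'def]
        · intro i hi hne
          rw [Finset.mem_range] at hi
          have : ¬ δ < i := by omega
          simp [this]
        · intro h
          exact absurd (Finset.mem_range.mpr (by omega)) h
      rw [this]
      exact mul_ne_zero hx0 hu
    have hw : ∀ j, ∑ l ∈ Finset.range (δ + 1), b ^ l * w j * u'' l = 0 := by
      intro j
      have h1 : ∑ i ∈ Finset.range (δ + 2), (b ^ i * x' j.succ - x' j.succ * b ^ i) * u' i = 0 := by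
        have e0 := hk' 0
        rw [hx'0] at e0
        simp only [mul_one] at e0
        have e1 : ∑ i ∈ Finset.range (δ + 2), x' j.succ * b ^ i * u' i = 0 := by
          simp only [mul_assoc]
          rw [← Finset.mul_sum, e0, mul_zero]
        simp only [sub_mul]
        rw [Finset.sum_sub_distrib, hk', e1, sub_zero]
      refine Eq.trans ?_ h1
      simp only [u'', Finset.mul_sum]
      rw [Finset.sum_comm]
      apply Finset.sum_congr rfl
      intro i hi
      rw [Finset.mem_range] at hi
      rw [telescope, Finset.sum_mul]
      have hsub : Finset.range i ⊆ Finset.range (δ + 1) := by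
        intro l hl
        rw [Finset.mem_range] at hl ⊢
        omega
      rw [← Finset.sum_subset hsub]
      · apply Finset.sum_congr rfl
        intro l hl
        rw [Finset.mem_range] at hl
        rw [if_pos hl]
        simp only [w, mul_assoc]
      · intro l _ hl
        rw [Finset.mem_range] at hl
        rw [if_neg hl, mul_zero]
    have hwi : LinearIndependent (cent b) w := by
      rw [Fintype.linearIndependent_iff] at hx' ⊢
      intro g hg
      have h1 : (∑ j, (g j : D) * x' j.succ) ∈ cent b := by
        rw [mem_cent]
        have h2 : b * (∑ j, (g j : D) * x' j.succ) - (∑ j, (g j : D) * x' j.succ) * b = 0 := by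
          refine Eq.trans ?_ hg
          rw [Finset.mul_sum, Finset.sum_mul, ← Finset.sum_sub_distrib]
          apply Finset.sum_congr rfl
          intro j _
          have hgj : (g j : D) * b = b * g j := (g j).2
          rw [Subfield.smul_def, smul_eq_mul]
          have e1 : b * ((g j : D) * x' j.succ) = (g j : D) * (b * x' j.succ) := by
            rw [← mul_assoc, ← hgj, mul_assoc]
          rw [e1, mul_assoc, ← mul_sub]
        exact (sub_eq_zero.mp h2).symm
      have h3 := hx' (Fin.cons (-⟨_, h1⟩) g) (by
        rw [Fin.sum_univ_succ]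
        simp only [Fin.cons_zero, Fin.cons_succ, hx'0]
        rw [Subfield.smul_def, smul_eq_mul, mul_one]
        simp only [Subfield.smul_def, smul_eq_mul]
        exact neg_add_cancel _)
      intro j
      have := h3 j.succ
      simpa using this
    have := ih u'' hu'' M w hwi hw
    omega

end Pool.Agent.BQG
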