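import Pool.Agent.H.MP_fbbc72_al.h41.Core3

/-! Finite dimension over a commutative subfield, elements with centralizer of finite codimension. -/

namespace Pool.Agent.BQG

open Module

variable {D : Type*} [DivisionRing D]

/-- Operators `x ↦ ∑ l_i x d_i` with `d_i` independent over the centre. -/
theorem ops_indep {ι : Type*} (d : ι → D) (hd : LinearIndependent (Subring.center D) d) :
    ∀ (n : ℕ) (s : Finset ι), s.card = n → ∀ l : ι → D,
      (∀ x : D, ∑ i ∈ s, l i * x * d i = 0) → ∀ i ∈ s, l i = 0 := by
  classical
  intro n
  induction n with
  | zero =>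
    intro s hs l _ i hi
    rw [Finset.card_eq_zero] at hs
    simp [hs] at hi
  | succ n ih =>
    intro s hs l hl
    by_contra hcon
    push Not at hcon
    obtain ⟨i0, hi0, hl0⟩ := hcon
    have hμ : ∀ x : D, ∑ i ∈ s, ((l i0)⁻¹ * l i) * x * d i = 0 := by
      intro x
      have h1 : ∑ i ∈ s, ((l i0)⁻¹ * l i) * x * d i = (l i0)⁻¹ * ∑ i ∈ s, l i * x * d i := by
        rw [Finset.mul_sum]
        apply Finset.sum_congr rfl
        intro i _
        simp only [mul_assoc]
      rw [h1, hl, mul_zero]
    set μ : ι → D := fun i => (l i0)⁻¹ * l i with hμdef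
    have hμ0 : μ i0 = 1 := inv_mul_cancel₀ hl0
    have hcard : (s.erase i0).card = n := by
      rw [Finset.card_erase_of_mem hi0, hs]; rfl
    have hcent : ∀ r : D, ∀ i ∈ s, r * μ i - μ i * r = 0 := by
      intro r i hi
      by_cases hii : i = i0
      · rw [hii, hμ0, mul_one, one_mul, sub_self]
      · apply ih (s.erase i0) hcard (fun i => r * μ i - μ i * r) _ i
          (Finset.mem_erase.mpr ⟨hii, hi⟩)
        intro x
        have h1 : ∑ i ∈ s, (r * μ i - μ i * r) * x * d i = 0 := by
          have e1 : ∑ i ∈ s, r * μ i * x * d i = 0 := by
            have : ∑ i ∈ s, r * μ i * x * d i = r * ∑ i ∈ s, μ i * x * d i := by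
              rw [Finset.mul_sum]
              apply Finset.sum_congr rfl
              intro i _
              simp only [mul_assoc]
            rw [this, hμ, mul_zero]
          have e2 : ∑ i ∈ s, μ i * r * x * d i = 0 := by
            refine Eq.trans ?_ (hμ (r * x))
            apply Finset.sum_congr rfl
            intro i _
            change μ i * r * x * d i = μ i * (r * x) * d i
            simp only [mul_assoc]
          simp only [sub_mul]
          rw [Finset.sum_sub_distrib, e1, e2, sub_zero]
        rw [← Finset.sum_erase_add _ _ hi0] at h1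
        simpa [hμ0] using h1
    have hmem : ∀ i ∈ s, μ i ∈ Subring.center D := by
      intro i hi
      rw [Subring.mem_center_iff]
      intro g
      exact sub_eq_zero.mp (hcent g i hi)
    have hg := linearIndependent_iff'.mp hd s
      (fun i => if h : i ∈ s then ⟨μ i, hmem i h⟩ else 0) (by
        refine Eq.trans ?_ (hμ 1)
        apply Finset.sum_congr rfl
        intro i hi
        simp only [hi, dif_pos, mul_one]
        rfl) i0 hi0
    simp only [hi0, dif_pos] at hg
    have := congrArg Subtype.val hg
    simp only [hμ0] at this
    exact one_ne_zero this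

/-- A division ring finite-dimensional over a commutative subfield is finite-dimensional over
its centre. -/
theorem finCent_of_comm (L : Subfield D) (hL : ∀ x ∈ L, ∀ y ∈ L, x * y = y * x)
    (hfin : Module.Finite L D) : FinCent D := by
  classical
  let N := finrank L D
  let e : Basis (Fin N) L D := Module.finBasis L D
  apply finite_of_bound (K := Subring.center D) (N * N)
  intro M d hd
  by_contra hM
  push Not at hM
  -- dependence of the vectors `(e_s * d_i)_s`
  have hdep : ¬ LinearIndependent L (fun i : Fin M => (fun s : Fin N => e s * d i)) := by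
    intro hli
    have h1 := hli.fintype_card_le_finrank
    have h2 : finrank L (Fin N → D) = N * N := by
      rw [Module.finrank_pi_fintype]
      simp [N]
    rw [h2, Fintype.card_fin] at h1
    omega
  rw [Fintype.not_linearIndependent_iff] at hdep
  obtain ⟨g, hg, i0, hi0⟩ := hdep
  have hz : ∀ x : D, ∑ i, (g i : D) * x * d i = 0 := by
    let T : D →ₗ[L] D :=
      { toFun := fun x => ∑ i, (g i : D) * x * d i
        map_add' := by
          intro x y
          rw [← Finset.sum_add_distrib]
          apply Finset.sum_congr rfl
          intro i _
          rw [mul_add, add_mul]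
        map_smul' := by
          intro c x
          simp only [Subfield.smul_def, smul_eq_mul, RingHom.id_apply]
          rw [Finset.mul_sum]
          apply Finset.sum_congr rfl
          intro i _
          have hc : (g i : D) * (c : D) = (c : D) * (g i : D) := hL _ (g i).2 _ c.2
          rw [← mul_assoc (g i : D), hc]
          simp only [mul_assoc] }
    have hT : T = 0 := by
      apply e.ext
      intro s
      change ∑ i, (g i : D) * e s * d i = 0
      have h1 := congrFun hg s
      simp only [Finset.sum_apply, Pi.smul_apply, Subfield.smul_def, smul_eq_mul,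
        Pi.zero_apply] at h1
      refine Eq.trans ?_ h1
      apply Finset.sum_congr rfl
      intro i _
      rw [mul_assoc]
    intro x
    exact congrArg (fun f : D →ₗ[L] D => f x) hT
  have h3 := ops_indep d hd M Finset.univ (by simp) (fun i => (g i : D)) hz i0
    (Finset.mem_univ _)
  exact hi0 (Subtype.ext h3)

/-- If `D` is finite-dimensional over the centralizer of `b`, then `b` is algebraic over the
centre. -/
theorem algebraic_of_finite_cent (b : D) (hfin : Module.Finite (cent b) D) :
    ∃ (n : ℕ) (z : ℕ → D), (∀ i, z i ∈ Subring.center D) ∧
      b ^ n + ∑ i ∈ Finset.range n, b ^ i * z i = 0 := by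
  classical
  let P : ℕ → Prop := fun δ => ∃ u : ℕ → D, u δ = 1 ∧
    ∀ x : D, ∑ i ∈ Finset.range (δ + 1), b ^ i * x * u i = 0
  -- normalisation: a nontrivial identity gives some `P`
  have hnorm : ∀ (m : ℕ) (u : ℕ → D), (∃ i < m, u i ≠ 0) →
      (∀ x : D, ∑ i ∈ Finset.range m, b ^ i * x * u i = 0) → ∃ δ < m, P δ := by
    intro m
    induction m with
    | zero => rintro u ⟨i, hi, _⟩ _; omega
    | succ m ih =>
      rintro u ⟨i, hi, hui⟩ hx
      by_cases hum : u m = 0
      · have hi' : i < m := by
          rcases Nat.lt_succ_iff_lt_or_eq.mp hi with h | h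
          · exact h
          · exact absurd (h ▸ hum) hui
        obtain ⟨δ, hδ, hP⟩ := ih u ⟨i, hi', hui⟩ (by
          intro x
          have := hx x
          rw [Finset.sum_range_succ, hum, mul_zero, add_zero] at this
          exact this)
        exact ⟨δ, by omega, hP⟩
      · refine ⟨m, by omega, fun i => u i * (u m)⁻¹, mul_inv_cancel₀ hum, ?_⟩
        intro x
        have h1 : ∑ i ∈ Finset.range (m + 1), b ^ i * x * (u i * (u m)⁻¹) =
            (∑ i ∈ Finset.range (m + 1), b ^ i * x * u i) * (u m)⁻¹ := by
          rw [Finset.sum_mul]
          apply Finset.sum_congr rfl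
          intro i _
          simp only [mul_assoc]
        rw [h1, hx, zero_mul]
  have hex : ∃ δ, P δ := by
    let N := finrank (cent b) D
    let e : Basis (Fin N) (cent b) D := Module.finBasis (cent b) D
    have hdep : ¬ LinearIndependent Dᵐᵒᵖ
        (fun i : Fin (N + 1) => (fun s : Fin N => MulOpposite.op (b ^ (i : ℕ) * e s))) := by
      intro hli
      have h1 := hli.fintype_card_le_finrank
      rw [Module.finrank_fin_fun, Fintype.card_fin] at h1
      omega
    rw [Fintype.not_linearIndependent_iff] at hdep
    obtain ⟨g, hg, i0, hi0⟩ := hdep
    let u : ℕ → D := fun i => if h : i < N + 1 then (g ⟨i, h⟩).unop else 0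
    have hz : ∀ x : D, ∑ i ∈ Finset.range (N + 1), b ^ i * x * u i = 0 := by
      let T : D →ₗ[cent b] D :=
        { toFun := fun x => ∑ i ∈ Finset.range (N + 1), b ^ i * x * u i
          map_add' := by
            intro x y
            rw [← Finset.sum_add_distrib]
            apply Finset.sum_congr rfl
            intro i _
            rw [mul_add, add_mul]
          map_smul' := by
            intro c x
            simp only [Subfield.smul_def, smul_eq_mul, RingHom.id_apply]
            rw [Finset.mul_sum]
            apply Finset.sum_congr rfl
            intro i _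
            have hc : b ^ i * (c : D) = (c : D) * b ^ i := by
              have hcb : Commute b (c : D) := (mem_cent.mp c.2).symm
              exact (hcb.pow_left i)
            rw [← mul_assoc (b ^ i), hc]
            simp only [mul_assoc] }
      have hT : T = 0 := by
        apply e.ext
        intro s
        change ∑ i ∈ Finset.range (N + 1), b ^ i * e s * u i = 0
        have h1 := congrFun hg s
        simp only [Finset.sum_apply, Pi.smul_apply, smul_eq_mul, Pi.zero_apply] at h1
        have h2 := congrArg MulOpposite.unop h1
        rw [Finset.sum_range]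
        refine Eq.trans ?_ h2
        rw [Finset.unop_sum]
        apply Finset.sum_congr rfl
        intro i _
        have : u (i : ℕ) = (g i).unop := by
          simp only [u]
          rw [dif_pos i.2]
        rw [this]
        simp
      intro x
      exact congrArg (fun f : D →ₗ[cent b] D => f x) hT
    obtain ⟨δ, -, hP⟩ := hnorm (N + 1) u ⟨i0, i0.2, by
      have : u (i0 : ℕ) = (g i0).unop := by
        simp only [u]
        rw [dif_pos i0.2]
      rw [this]
      intro h0
      exact hi0 (MulOpposite.unop_injective h0)⟩ hz
    exact ⟨δ, hP⟩
  let n := Nat.find hex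
  obtain ⟨u, hun, hu⟩ := Nat.find_spec hex
  have hcent : ∀ i < n, u i ∈ Subring.center D := by
    intro i hi
    rw [Subring.mem_center_iff]
    intro r
    by_contra hne
    obtain ⟨δ, hδ, hP⟩ := hnorm n (fun i => r * u i - u i * r) ⟨i, hi, sub_ne_zero.mpr hne⟩ (by
      intro x
      have e1 : ∑ i ∈ Finset.range (n + 1), b ^ i * x * (r * u i) = 0 := by
        refine Eq.trans ?_ (hu (x * r))
        apply Finset.sum_congr rfl
        intro i _
        simp only [mul_assoc]
      have e2 : ∑ i ∈ Finset.range (n + 1), b ^ i * x * (u i * r) = 0 := by
        have : ∑ i ∈ Finset.range (n + 1), b ^ i * x * (u i * r) =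
            (∑ i ∈ Finset.range (n + 1), b ^ i * x * u i) * r := by
          rw [Finset.sum_mul]
          apply Finset.sum_congr rfl
          intro i _
          simp only [mul_assoc]
        rw [this, hu, zero_mul]
      have e3 : ∑ i ∈ Finset.range (n + 1), b ^ i * x * (r * u i - u i * r) = 0 := by
        have e4 : ∀ i ∈ Finset.range (n + 1), b ^ i * x * (r * u i - u i * r) =
            b ^ i * x * (r * u i) - b ^ i * x * (u i * r) := fun i _ => mul_sub _ _ _
        rw [Finset.sum_congr rfl e4, Finset.sum_sub_distrib, e1, e2, sub_zero]
      rw [Finset.sum_range_succ] at e3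
      have hun' : u n = 1 := hun
      simpa [hun'] using e3)
    exact Nat.find_min hex hδ hP
  refine ⟨n, fun i => if i < n then u i else 0, ?_, ?_⟩
  · intro i
    dsimp only
    split_ifs with h
    · exact hcent i h
    · exact Subring.zero_mem _
  · have h1 := hu 1
    have hun' : u n = 1 := hun
    change ∑ i ∈ Finset.range (n + 1), b ^ i * 1 * u i = 0 at h1
    rw [Finset.sum_range_succ, hun', mul_one, mul_one, add_comm] at h1
    refine Eq.trans ?_ h1
    congr 1
    apply Finset.sum_congr rfl
    intro i hi
    change b ^ i * (if i < n then u i else 0) = b ^ i * 1 * u i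
    rw [if_pos (Finset.mem_range.mp hi), mul_one]

end Pool.Agent.BQG
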