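import Pool.Agent.H.MP_fbbc72_al.h41.Core4

/-! Growth bounds and common denominators of powers. -/

namespace Pool.Agent.BQG

open Module

variable {k D : Type*} [Field k] [DivisionRing D] [Algebra k D]

/-- the algebra generated by `V` is the union of the powers -/
theorem Quad.mem_adjoin {V : Submodule k D} {C : ℕ} (h : Quad V C) {x : D} :
    x ∈ Algebra.adjoin k (V : Set D) ↔ ∃ n, x ∈ V ^ n := by
  constructor
  · intro hx
    refine Algebra.adjoin_induction (p := fun x _ => ∃ n, x ∈ V ^ n) ?_ ?_ ?_ ?_ hx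
    · intro y hy
      exact ⟨1, by rw [pow_one]; exact hy⟩
    · intro c
      refine ⟨0, ?_⟩
      rw [Algebra.algebraMap_eq_smul_one]
      exact Submodule.smul_mem _ _ (h.one_mem_pow 0)
    · rintro y z _ _ ⟨n, hn⟩ ⟨m, hm⟩
      exact ⟨n + m, Submodule.add_mem _ (h.pow_mono (Nat.le_add_right n m) hn)
        (h.pow_mono (Nat.le_add_left m n) hm)⟩
    · rintro y z _ _ ⟨n, hn⟩ ⟨m, hm⟩
      exact ⟨n + m, Quad.mul_mem hn hm⟩
  · rintro ⟨n, hn⟩
    have h1 : V ^ n ≤ Subalgebra.toSubmodule (Algebra.adjoin k (V : Set D)) := by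
      clear hn
      induction n with
      | zero =>
        rw [pow_zero, Submodule.one_le]
        exact Subalgebra.one_mem _
      | succ n ih =>
        rw [pow_succ, Submodule.mul_le]
        intro a ha b hb
        exact Subalgebra.mul_mem _ (ih ha) (Algebra.subset_adjoin hb)
    exact h1 hn

/-- some power of `V` contains a transcendental element -/
theorem Quad.exists_transc {V : Submodule k D} {C : ℕ} (h : Quad V C) {a : D}
    (ha : Transcendental k a) : ∃ e, ∃ b ∈ V ^ e, Transcendental k b := by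
  by_contra hcon
  push Not at hcon
  obtain ⟨n, u, hu, v, hv, hv0, rfl⟩ := h.frac a
  have h1 : IsAlgebraic k v := by
    by_contra h2
    exact hcon n v hv h2
  have h2 : v⁻¹ ∈ Algebra.adjoin k (V : Set D) := by
    have h3 := h1.isIntegral.inv_mem_adjoin
    have h4 : Algebra.adjoin k {v} ≤ Algebra.adjoin k (V : Set D) := by
      apply Algebra.adjoin_le
      rintro _ rfl
      exact h.mem_adjoin.mpr ⟨n, hv⟩
    exact h4 h3
  have h3 : u * v⁻¹ ∈ Algebra.adjoin k (V : Set D) :=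
    Subalgebra.mul_mem _ (h.mem_adjoin.mpr ⟨n, hu⟩) h2
  obtain ⟨m, hm⟩ := h.mem_adjoin.mp h3
  exact hcon m _ hm ha

theorem gen_commutative (a : D) : ∀ x ∈ gen k a, ∀ y ∈ gen k a, x * y = y * x :=
  fun _ hx _ hy => gen_comm hx hy

/-- counting with the exact dimension -/
theorem Quad.count' {V : Submodule k D} {C : ℕ} (h : Quad V C) {a : D} (ha : Transcendental k a)
    {w : D} (hw : w ≠ 0) {L H : ℕ} (hwa : ∀ i < L, w * a ^ i ∈ V ^ H)
    {n N : ℕ} (y : Fin N → D) (hy : LinearIndependent (gen k a) y)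
    (hyV : ∀ j, y j ∈ V ^ n) :
    L * N ≤ finrank k ↥(V ^ (H + n)) := by
  have h1 : LinearIndependent k (fun i : Fin L => a ^ (i : ℕ)) :=
    (indep_pow ha).comp _ Fin.val_injective
  have h2 := indep_mul_k (k := k) (K := gen k a) (algebraMap_mem_gen a) _ h1
    (fun i => pow_mem_gen a i) y hy
  have h3 := indep_left_mul hw h2
  have h4 : LinearIndependent k (fun p : Fin L × Fin N =>
      (⟨w * (a ^ (p.1 : ℕ) * y p.2), by
        rw [← mul_assoc]
        exact Quad.mul_mem (hwa p.1 p.1.2) (hyV p.2)⟩ : ↥(V ^ (H + n)))) := by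
    apply LinearIndependent.of_comp (V ^ (H + n)).subtype
    exact h3
  have := h.fin_pow (H + n)
  have h5 := h4.fintype_card_le_finrank
  simpa using h5

/-- quadratic lower bound for the growth -/
theorem Quad.lower {V : Submodule k D} {C : ℕ} (h : Quad V C) (hD : ¬ FinCent D) {a : D}
    (ha : Transcendental k a) : ∃ e, ∀ n, (n + 1) ^ 2 ≤ finrank k ↥(V ^ (e * n)) := by
  obtain ⟨e, b, hb, hbt⟩ := h.exists_transc ha
  refine ⟨e + 1, fun n => ?_⟩
  have hnf : ¬ Module.Finite (gen k b) D := fun hf =>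
    hD (finCent_of_comm _ (gen_commutative (k := k) b) hf)
  obtain ⟨z, hz, hzi⟩ := h.exists_indep (gen k b) (algebraMap_mem_gen b) hnf 1 one_ne_zero n
  simp only [one_mul] at hzi
  have h1 := h.count' hbt (w := 1) one_ne_zero (L := n + 1) (H := e * n) (by
    intro i hi
    rw [one_mul]
    exact h.pow_mono (Nat.mul_le_mul_left e (Nat.lt_succ_iff.mp hi)) (Quad.pow_mem hb i)) z hzi hz
  rw [sq]
  have e2 : e * n + n = (e + 1) * n := by ring
  rwa [e2] at h1

/-- exponential beats quadratic -/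
theorem exists_pow_gt (A : ℕ) : ∃ K : ℕ, A * (K + 1) ^ 2 < 2 ^ K := by
  have h1 := tendsto_pow_const_div_const_pow_of_one_lt 2 (r := (2 : ℝ)) (by norm_num)
  have h2 : ∀ᶠ n : ℕ in Filter.atTop, (n : ℝ) ^ 2 / 2 ^ n < 1 / (2 * (A + 1)) := by
    apply h1.eventually_lt_const
    positivity
  obtain ⟨N, hN⟩ := (h2.and (Filter.eventually_ge_atTop 1)).exists
  obtain ⟨hN1, hN2⟩ := hN
  obtain ⟨K, rfl⟩ := Nat.exists_eq_add_of_le hN2
  refine ⟨K, ?_⟩
  have h3 : (2 : ℝ) ^ (1 + K) = 2 * 2 ^ K := by rw [pow_add, pow_one]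
  have h4 : (0 : ℝ) < 2 ^ K := by positivity
  rw [h3, div_lt_div_iff₀ (by positivity) (by positivity)] at hN1
  have h5 : ((A : ℝ) + 1) * ((K : ℝ) + 1) ^ 2 < 2 ^ K := by
    push_cast at hN1
    nlinarith
  have h6 : (A : ℝ) * ((K : ℝ) + 1) ^ 2 < 2 ^ K := by
    have : (0 : ℝ) ≤ ((K : ℝ) + 1) ^ 2 := by positivity
    nlinarith
  exact_mod_cast h6

/-- Left Ore condition from subexponential growth. -/
theorem Quad.leftOre {V : Submodule k D} {C : ℕ} (h : Quad V C) {m : ℕ} (hm : 1 ≤ m) {u v : D}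
    (hu : u ∈ V ^ m) (hv : v ∈ V ^ m) (hv0 : v ≠ 0) :
    ∃ n, ∃ p ∈ V ^ n, ∃ q ∈ V ^ n, p ≠ 0 ∧ p * u = q * v := by
  by_contra hcon
  push Not at hcon
  have hstep : ∀ n, 2 * finrank k ↥(V ^ n) ≤ finrank k ↥(V ^ (n + m)) := by
    intro n
    have := h.fin_pow n
    have := h.fin_pow (n + m)
    let f : (↥(V ^ n) × ↥(V ^ n)) →ₗ[k] ↥(V ^ (n + m)) :=
      { toFun := fun x => ⟨x.1.1 * u - x.2.1 * v,
          Submodule.sub_mem _ (Quad.mul_mem x.1.2 hu) (Quad.mul_mem x.2.2 hv)⟩
        map_add' := by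
          intro x y
          ext
          simp only [Prod.fst_add, Prod.snd_add, Submodule.coe_add]
          noncomm_ring
        map_smul' := by
          intro c x
          ext
          simp only [Prod.smul_fst, Prod.smul_snd, Submodule.coe_smul, RingHom.id_apply,
            smul_mul_assoc, smul_sub] }
    have hf : Function.Injective f := by
      rw [← LinearMap.ker_eq_bot, LinearMap.ker_eq_bot']
      rintro ⟨⟨x, hx⟩, ⟨y, hy⟩⟩ hxy
      have h1 : x * u - y * v = 0 := congrArg Subtype.val hxy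
      have h2 : x * u = y * v := sub_eq_zero.mp h1
      have hx0 : x = 0 := by
        by_contra hx0
        exact hcon n x hx y hy hx0 h2
      have hy0 : y = 0 := by
        rw [hx0, zero_mul] at h2
        rcases mul_eq_zero.mp h2.symm with h3 | h3
        · exact h3
        · exact absurd h3 hv0
      simp [hx0, hy0]
    have h1 := LinearMap.finrank_le_finrank_of_injective hf
    rw [Module.finrank_prod] at h1
    omega
  have hexp : ∀ j, 2 ^ j ≤ finrank k ↥(V ^ (j * m)) := by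
    intro j
    induction j with
    | zero =>
      have := h.fin_pow (0 * m)
      have h1 : (⟨1, h.one_mem_pow (0 * m)⟩ : ↥(V ^ (0 * m))) ≠ 0 := by
        intro h0
        exact one_ne_zero (congrArg Subtype.val h0)
      have h2 : Nontrivial ↥(V ^ (0 * m)) := ⟨⟨_, _, h1⟩⟩
      exact Module.finrank_pos
    | succ j ih =>
      have h1 := hstep (j * m)
      have e1 : j * m + m = (j + 1) * m := by ring
      rw [e1] at h1
      rw [pow_succ]
      omega
  obtain ⟨K, hK⟩ := exists_pow_gt (C * m ^ 2)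
  have h1 := hexp (K + 1)
  have h2 := h.growth ((K + 1) * m) (by nlinarith)
  have h3 : C * ((K + 1) * m) ^ 2 = C * m ^ 2 * (K + 1) ^ 2 := by ring
  have h4 : 2 ^ K ≤ 2 ^ (K + 1) := Nat.pow_le_pow_right (by norm_num) (Nat.le_succ K)
  omega

/-- left fractions -/
theorem Quad.leftFrac {V : Submodule k D} {C : ℕ} (h : Quad V C) (a : D) :
    ∃ m, ∃ u ∈ V ^ m, ∃ v ∈ V ^ m, v ≠ 0 ∧ v * a = u := by
  by_cases ha : a = 0
  · exact ⟨0, 0, Submodule.zero_mem _, 1, h.one_mem_pow 0, one_ne_zero, by rw [ha, mul_zero]⟩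
  obtain ⟨n, u, hu, v, hv, hv0, rfl⟩ := h.frac a
  obtain ⟨m, p, hp, q, hq, hp0, hpq⟩ := h.leftOre (m := n + 1) (by omega)
    (h.pow_mono (Nat.le_succ n) hu) (h.pow_mono (Nat.le_succ n) hv) hv0
  refine ⟨m, q, hq, p, hp, hp0, ?_⟩
  rw [← mul_assoc, hpq, mul_assoc, mul_inv_cancel₀ hv0, mul_one]

end Pool.Agent.BQG
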