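import Pool.Agent.H.MP_fbbc72_al.h41.Core5

/-! Common denominators of powers. -/

namespace Pool.Agent.BQG

open Module

variable {k D : Type*} [Field k] [DivisionRing D] [Algebra k D]

theorem finrank_comap_ge {A B : Type*} [AddCommGroup A] [Module k A] [FiniteDimensional k A]
    [AddCommGroup B] [Module k B] [FiniteDimensional k B] (f : A →ₗ[k] B) (T : Submodule k B) :
    finrank k A + finrank k T ≤ finrank k ↥(T.comap f) + finrank k B := by
  have h1 := LinearMap.finrank_range_add_finrank_ker (T.mkQ.comp f)
  have h2 : LinearMap.ker (T.mkQ.comp f) = T.comap f := by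
    rw [LinearMap.ker_comp, Submodule.ker_mkQ]
  rw [h2] at h1
  have h3 := Submodule.finrank_le (LinearMap.range (T.mkQ.comp f))
  have h4 := Submodule.finrank_quotient_add_finrank T
  omega

/-- the space of common left denominators of `1, a, ..., a^i` in `W` -/
def denSpace (W : Submodule k D) (a : D) (i : ℕ) : Submodule k D :=
  ⨅ j : Fin (i + 1), W.comap (LinearMap.mulRight k (a ^ (j : ℕ)))

theorem mem_denSpace {W : Submodule k D} {a : D} {i : ℕ} {w : D} :
    w ∈ denSpace W a i ↔ ∀ j < i + 1, w * a ^ j ∈ W := by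
  unfold denSpace
  rw [Submodule.mem_iInf]
  constructor
  · intro h j hj
    exact h ⟨j, hj⟩
  · intro h j
    exact h j.1 j.2

theorem denSpace_le (W : Submodule k D) (a : D) (i : ℕ) : denSpace W a i ≤ W := by
  intro w hw
  have := mem_denSpace.mp hw 0 (by omega)
  rwa [pow_zero, mul_one] at this

theorem denSpace_rank (W : Submodule k D) (hW : FiniteDimensional k W) (a : D) (i : ℕ) :
    finrank k W + i * finrank k ↥(denSpace W a 1) ≤
      finrank k ↥(denSpace W a i) + i * finrank k W := by
  have hfd : ∀ i, FiniteDimensional k ↥(denSpace W a i) := fun i =>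
    Submodule.finiteDimensional_of_le (denSpace_le W a i)
  induction i with
  | zero =>
    have : denSpace W a 0 = W := by
      apply le_antisymm (denSpace_le W a 0)
      intro w hw
      rw [mem_denSpace]
      intro j hj
      have : j = 0 := by omega
      rw [this, pow_zero, mul_one]
      exact hw
    rw [this]
    simp
  | succ i ih =>
    have := hfd i
    have := hfd (i + 1)
    have := hfd 1
    let f : ↥(denSpace W a i) →ₗ[k] W :=
      { toFun := fun w => ⟨w.1 * a ^ i, mem_denSpace.mp w.2 i (by omega)⟩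
        map_add' := by
          intro x y
          ext
          simp [add_mul]
        map_smul' := by
          intro c x
          ext
          simp }
    let T : Submodule k W := (denSpace W a 1).comap W.subtype
    have h1 := finrank_comap_ge f T
    have h2 : finrank k T = finrank k ↥(denSpace W a 1) :=
      (Submodule.comapSubtypeEquivOfLe (denSpace_le W a 1)).finrank_eq
    have h3 : finrank k ↥(T.comap f) ≤ finrank k ↥(denSpace W a (i + 1)) := by
      let g : ↥(T.comap f) →ₗ[k] ↥(denSpace W a (i + 1)) :=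
        { toFun := fun x => ⟨x.1.1, by
            rw [mem_denSpace]
            intro j hj
            rcases Nat.lt_succ_iff_lt_or_eq.mp hj with h | h
            · exact mem_denSpace.mp x.1.2 j h
            · have hx : (x.1.1 * a ^ i) ∈ denSpace W a 1 := x.2
              have h5 := mem_denSpace.mp hx 1 (by omega)
              rw [h, pow_succ, ← mul_assoc]
              rwa [pow_one] at h5⟩
          map_add' := by intro x y; rfl
          map_smul' := by intro c x; rfl }
      apply LinearMap.finrank_le_finrank_of_injective (f := g)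
      intro x y hxy
      apply Subtype.ext
      apply Subtype.ext
      exact congrArg (fun z : ↥(denSpace W a (i + 1)) => (z : D)) hxy
    have h4 : (i + 1) * finrank k ↥(denSpace W a 1) = i * finrank k ↥(denSpace W a 1) +
        finrank k ↥(denSpace W a 1) := by ring
    have h5 : (i + 1) * finrank k W = i * finrank k W + finrank k W := by ring
    rw [h2] at h1
    omega

/-- growth of the number of common denominators -/
theorem Quad.denSpace_one {V : Submodule k D} {C : ℕ} (h : Quad V C) {a : D} {m : ℕ} {u v : D}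
    (hu : u ∈ V ^ m) (hv : v ∈ V ^ m) (hv0 : v ≠ 0) (hva : v * a = u) (n : ℕ) :
    finrank k ↥(V ^ n) ≤ finrank k ↥(denSpace (V ^ (n + m)) a 1) := by
  have := h.fin_pow (n + m)
  have : FiniteDimensional k ↥(denSpace (V ^ (n + m)) a 1) :=
    Submodule.finiteDimensional_of_le (denSpace_le _ a 1)
  let g : ↥(V ^ n) →ₗ[k] ↥(denSpace (V ^ (n + m)) a 1) :=
    { toFun := fun x => ⟨x.1 * v, by
        rw [mem_denSpace]
        intro j hj
        have hj' : j = 0 ∨ j = 1 := by omega
        rcases hj' with rfl | rfl
        · rw [pow_zero, mul_one]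
          exact Quad.mul_mem x.2 hv
        · rw [pow_one, mul_assoc, hva]
          exact Quad.mul_mem x.2 hu⟩
      map_add' := by
        intro x y
        ext
        simp [add_mul]
      map_smul' := by
        intro c x
        ext
        simp }
  apply LinearMap.finrank_le_finrank_of_injective (f := g)
  intro x y hxy
  have h1 : x.1 * v = y.1 * v := congrArg Subtype.val hxy
  exact Subtype.ext (mul_right_cancel₀ hv0 h1)

theorem doubling (r : ℕ → ℕ) (l : ℕ) (hl : 1 ≤ l) (j0 K : ℕ)
    (hr : ∀ j, j0 ≤ j → j < j0 + K * l → r (j + 1) + l * r j ≤ l * r (j + 1)) :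
    2 ^ K * r j0 ≤ r (j0 + K * l) := by
  induction K with
  | zero => simp
  | succ K ih =>
    have h1 := ih (by
      intro j h1 h2
      apply hr j h1
      have : (K + 1) * l = K * l + l := by ring
      omega)
    have h2 : ∀ s, s ≤ l → (l + s) * r (j0 + K * l) ≤ l * r (j0 + K * l + s) ∧
        r (j0 + K * l) ≤ r (j0 + K * l + s) := by
      intro s
      induction s with
      | zero => intro _; simp
      | succ s ihs =>
        intro hs
        obtain ⟨h3, h4⟩ := ihs (by omega)
        have h5 := hr (j0 + K * l + s) (by omega) (by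
          have : (K + 1) * l = K * l + l := by ring
          omega)
        have h6 : r (j0 + K * l + s) ≤ r (j0 + K * l + s + 1) := by
          have h7 : l * r (j0 + K * l + s) ≤ l * r (j0 + K * l + s + 1) := by omega
          exact Nat.le_of_mul_le_mul_left h7 (by omega)
        constructor
        · have h8 : (l + (s + 1)) * r (j0 + K * l) = (l + s) * r (j0 + K * l) +
              r (j0 + K * l) := by ring
          rw [h8, ← add_assoc]
          omega
        · rw [← add_assoc]; omega
    obtain ⟨h9, -⟩ := h2 l le_rfl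
    have h10 : (l + l) * r (j0 + K * l) = l * (2 * r (j0 + K * l)) := by ring
    rw [h10] at h9
    have h11 := Nat.le_of_mul_le_mul_left h9 (by omega)
    have h12 : j0 + (K + 1) * l = j0 + K * l + l := by ring
    rw [h12, pow_succ]
    calc 2 ^ K * 2 * r j0 = 2 * (2 ^ K * r j0) := by ring
      _ ≤ 2 * r (j0 + K * l) := Nat.mul_le_mul_left 2 h1
      _ ≤ _ := h11

/-- Common left denominators of `1, a, ..., a^{l-1}` of linear degree. -/
theorem Quad.denominators {V : Submodule k D} {C : ℕ} (h : Quad V C) (hD : ¬ FinCent D) {a : D}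
    (ha : Transcendental k a) :
    ∃ κ, ∀ l, 1 ≤ l → ∃ w, w ≠ 0 ∧ ∀ i < l, w * a ^ i ∈ V ^ (κ * l) := by
  obtain ⟨e, he⟩ := h.lower hD ha
  obtain ⟨m0, u, hu, v, hv, hv0, hva⟩ := h.leftFrac a
  let m := m0 + e + 1
  have hu' : u ∈ V ^ m := h.pow_mono (by omega) hu
  have hv' : v ∈ V ^ m := h.pow_mono (by omega) hv
  obtain ⟨K, hK⟩ := exists_pow_gt (C * m ^ 2)
  refine ⟨(K + 1) * m, fun l hl => ?_⟩
  let r : ℕ → ℕ := fun j => finrank k ↥(V ^ (j * m))
  have hex : ∃ j, l ≤ j ∧ j < l + K * l ∧ l * r (j + 1) < r (j + 1) + l * r j := by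
    by_contra hcon
    push Not at hcon
    have h1 := doubling r l hl l K hcon
    have h2 : (l + 1) ^ 2 ≤ r l := by
      refine (he l).trans ?_
      have := h.fin_pow (l * m)
      apply Submodule.finrank_mono
      apply h.pow_mono
      calc e * l ≤ m * l := Nat.mul_le_mul_right l (by omega)
        _ = l * m := Nat.mul_comm _ _
    have h3 : r (l + K * l) ≤ C * ((l + K * l) * m) ^ 2 := by
      apply h.growth
      exact Nat.mul_pos (by omega) (by omega)
    have h4 : C * ((l + K * l) * m) ^ 2 = C * m ^ 2 * (K + 1) ^ 2 * l ^ 2 := by ring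
    have h5 : 2 ^ K * (l + 1) ^ 2 ≤ C * m ^ 2 * (K + 1) ^ 2 * l ^ 2 := by
      rw [← h4]
      exact (Nat.mul_le_mul_left _ h2).trans (h1.trans h3)
    have h6 : l ^ 2 ≤ (l + 1) ^ 2 := Nat.pow_le_pow_left (Nat.le_succ l) 2
    have h7 : C * m ^ 2 * (K + 1) ^ 2 * l ^ 2 < 2 ^ K * l ^ 2 := by
      apply Nat.mul_lt_mul_of_pos_right hK
      positivity
    have h8 : 2 ^ K * l ^ 2 ≤ 2 ^ K * (l + 1) ^ 2 := Nat.mul_le_mul_left _ h6
    omega
  obtain ⟨j, hj1, hj2, hj3⟩ := hex
  have e1 : j * m + m = (j + 1) * m := by ring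
  have h1 := h.denSpace_one hu' hv' hv0 hva (j * m)
  rw [e1] at h1
  have hfd := h.fin_pow ((j + 1) * m)
  have h2 := denSpace_rank (V ^ ((j + 1) * m)) hfd a (l - 1)
  have h3 : 0 < finrank k ↥(denSpace (V ^ ((j + 1) * m)) a (l - 1)) := by
    by_contra h0
    push Not at h0
    have h0' : finrank k ↥(denSpace (V ^ ((j + 1) * m)) a (l - 1)) = 0 := by omega
    rw [h0', zero_add] at h2
    have h4 : (l - 1) * r j ≤ (l - 1) * finrank k ↥(denSpace (V ^ ((j + 1) * m)) a 1) :=
      Nat.mul_le_mul_left _ h1
    obtain ⟨l', rfl⟩ := Nat.exists_eq_add_of_le hl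
    have e2 : 1 + l' - 1 = l' := by omega
    rw [e2] at h2 h4
    have e3 : (1 + l') * r (j + 1) = r (j + 1) + l' * r (j + 1) := by ring
    have e4 : (1 + l') * r j = r j + l' * r j := by ring
    rw [e3, e4] at hj3
    have h5 : r (j + 1) + l' * r j ≤ l' * r (j + 1) := by
      change finrank k ↥(V ^ ((j + 1) * m)) + l' * r j ≤ l' * finrank k ↥(V ^ ((j + 1) * m))
      omega
    have h6 : r j ≤ r (j + 1) := by
      apply Submodule.finrank_mono
      apply h.pow_mono
      exact Nat.mul_le_mul_right m (Nat.le_succ j)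
    omega
  have hfd2 : FiniteDimensional k ↥(denSpace (V ^ ((j + 1) * m)) a (l - 1)) :=
    Submodule.finiteDimensional_of_le (denSpace_le _ a _)
  have hnt : Nontrivial ↥(denSpace (V ^ ((j + 1) * m)) a (l - 1)) :=
    Module.finrank_pos_iff.mp h3
  obtain ⟨w, hw⟩ := exists_ne (0 : ↥(denSpace (V ^ ((j + 1) * m)) a (l - 1)))
  refine ⟨w.1, fun h0 => hw (Subtype.ext h0), ?_⟩
  intro i hi
  have h4 := mem_denSpace.mp w.2 i (by omega)
  refine h.pow_mono ?_ h4
  have : j + 1 ≤ (K + 1) * l := by nlinarith
  calc (j + 1) * m ≤ (K + 1) * l * m := Nat.mul_le_mul_right m this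
    _ = (K + 1) * m * l := by ring

end Pool.Agent.BQG
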