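import Pool.Agent.H.MP_fbbc72_al.h41.Core6

/-! A central transcendental element forces finite dimension over the centre. -/

namespace Pool.Agent.BQG

open Module

variable {k D : Type*} [Field k] [DivisionRing D] [Algebra k D]

/-- operators with coefficients in a self-centralizing division subring -/
theorem ops_indep' {L : Subfield D} (hLc : ∀ c : D, (∀ y ∈ L, y * c = c * y) → c ∈ L)
    {ι : Type*} (d : ι → D) (hd : LinearIndependent L d) :
    ∀ (n : ℕ) (s : Finset ι), s.card = n → ∀ l : ι → D,
      (∀ x ∈ L, ∑ i ∈ s, l i * x * d i = 0) → ∀ i ∈ s, l i = 0 := by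
  classical
  intro n
  induction n with
  | zero =>
    intro s hs l _ i hi
    rw [Finset.card_eq_zero] at hs
    simp [hs] at hi
  | succ n ih =>
    intro s hs l hl
    by_contra hcon
    push Not at hcon
    obtain ⟨i0, hi0, hl0⟩ := hcon
    have hμ : ∀ x ∈ L, ∑ i ∈ s, ((l i0)⁻¹ * l i) * x * d i = 0 := by
      intro x hx
      have h1 : ∑ i ∈ s, ((l i0)⁻¹ * l i) * x * d i = (l i0)⁻¹ * ∑ i ∈ s, l i * x * d i := by
        rw [Finset.mul_sum]
        apply Finset.sum_congr rfl
        intro i _
        simp only [mul_assoc]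
      rw [h1, hl x hx, mul_zero]
    set μ : ι → D := fun i => (l i0)⁻¹ * l i with hμdef
    have hμ0 : μ i0 = 1 := inv_mul_cancel₀ hl0
    have hcard : (s.erase i0).card = n := by
      rw [Finset.card_erase_of_mem hi0, hs]; rfl
    have hcent : ∀ r ∈ L, ∀ i ∈ s, r * μ i - μ i * r = 0 := by
      intro r hr i hi
      by_cases hii : i = i0
      · rw [hii, hμ0, mul_one, one_mul, sub_self]
      · apply ih (s.erase i0) hcard (fun i => r * μ i - μ i * r) _ i
          (Finset.mem_erase.mpr ⟨hii, hi⟩)
        intro x hx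
        have h1 : ∑ i ∈ s, (r * μ i - μ i * r) * x * d i = 0 := by
          have e1 : ∑ i ∈ s, r * μ i * x * d i = 0 := by
            have : ∑ i ∈ s, r * μ i * x * d i = r * ∑ i ∈ s, μ i * x * d i := by
              rw [Finset.mul_sum]
              apply Finset.sum_congr rfl
              intro i _
              simp only [mul_assoc]
            rw [this, hμ x hx, mul_zero]
          have e2 : ∑ i ∈ s, μ i * r * x * d i = 0 := by
            refine Eq.trans ?_ (hμ (r * x) (L.mul_mem hr hx))
            apply Finset.sum_congr rfl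
            intro i _
            change μ i * r * x * d i = μ i * (r * x) * d i
            simp only [mul_assoc]
          simp only [sub_mul]
          rw [Finset.sum_sub_distrib, e1, e2, sub_zero]
        rw [← Finset.sum_erase_add _ _ hi0] at h1
        simpa [hμ0] using h1
    have hmem : ∀ i ∈ s, μ i ∈ L := by
      intro i hi
      apply hLc
      intro y hy
      exact sub_eq_zero.mp (hcent y hy i hi)
    have hg := linearIndependent_iff'.mp hd s
      (fun i => if h : i ∈ s then ⟨μ i, hmem i h⟩ else 0) (by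
        refine Eq.trans ?_ (hμ 1 L.one_mem)
        apply Finset.sum_congr rfl
        intro i hi
        simp only [hi, dif_pos, mul_one]
        rfl) i0 hi0
    simp only [hi0, dif_pos] at hg
    have := congrArg Subtype.val hg
    simp only [hμ0] at this
    exact one_ne_zero this

/-- a self-centralizing subfield of degree `M` over a central subfield has codimension `≤ M` -/
theorem finite_over_selfcent {K₀ L : Subfield D} (hK₀ : ∀ c ∈ K₀, ∀ y : D, c * y = y * c)
    (hLc : ∀ c : D, (∀ y ∈ L, y * c = c * y) → c ∈ L) {M : ℕ} (x : Fin M → D)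
    (hspan : ∀ y ∈ L, y ∈ Submodule.span K₀ (Set.range x))
    : Module.Finite L D := by
  classical
  apply finite_of_bound M
  intro N d hd
  by_contra hN
  push Not at hN
  have hdep : ¬ LinearIndependent D (fun j : Fin N => (fun i : Fin M => x i * d j)) := by
    intro hli
    have h1 := hli.fintype_card_le_finrank
    rw [Module.finrank_fin_fun, Fintype.card_fin] at h1
    omega
  rw [Fintype.not_linearIndependent_iff] at hdep
  obtain ⟨g, hg, j0, hj0⟩ := hdep
  have h1 : ∀ y ∈ L, ∑ j, g j * y * d j = 0 := by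
    intro y hy
    have hy' := hspan y hy
    refine Submodule.span_induction (p := fun y _ => ∑ j, g j * y * d j = 0) ?_ ?_ ?_ ?_ hy'
    · rintro _ ⟨i, rfl⟩
      have h2 := congrFun hg i
      simp only [Finset.sum_apply, Pi.smul_apply, smul_eq_mul, Pi.zero_apply] at h2
      refine Eq.trans ?_ h2
      apply Finset.sum_congr rfl
      intro j _
      rw [mul_assoc]
    · simp
    · intro a b _ _ ha hb
      simp only [mul_add, add_mul, Finset.sum_add_distrib, ha, hb, add_zero]
    · intro c a _ ha
      have : ∑ j, g j * (c • a) * d j = (c : D) * ∑ j, g j * a * d j := by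
        rw [Finset.mul_sum]
        apply Finset.sum_congr rfl
        intro j _
        rw [Subfield.smul_def, smul_eq_mul, ← mul_assoc (g j), ← hK₀ _ c.2 (g j)]
        simp only [mul_assoc]
      rw [this, ha, mul_zero]
  exact hj0 (ops_indep' hLc d hd N Finset.univ (by simp) g h1 j0 (Finset.mem_univ _))

/-- common right denominators -/
theorem Quad.commonDen {V : Submodule k D} {C : ℕ} (h : Quad V C) : ∀ (N : ℕ) (x : Fin N → D),
    ∃ m, ∃ v, v ≠ 0 ∧ v ∈ V ^ m ∧ ∀ i, x i * v ∈ V ^ m := by
  intro N
  induction N with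
  | zero =>
    intro x
    exact ⟨0, 1, one_ne_zero, h.one_mem_pow 0, fun i => i.elim0⟩
  | succ N ih =>
    intro x
    obtain ⟨m, v, hv0, hv, hx⟩ := ih (fun i => x i.succ)
    obtain ⟨n, u, hu, w, hw, hw0, huw⟩ := h.frac (x 0 * v)
    refine ⟨m + n, v * w, mul_ne_zero hv0 hw0, Quad.mul_mem hv hw, ?_⟩
    intro i
    refine Fin.cases ?_ ?_ i
    · rw [← mul_assoc, huw, mul_assoc, inv_mul_cancel₀ hw0, mul_one]
      exact h.pow_mono (Nat.le_add_left n m) hu
    · intro j
      rw [← mul_assoc]
      exact Quad.mul_mem (hx j) hw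

/-- Counting inequality for independent families over `k(a)`. -/
theorem Quad.count2 {V : Submodule k D} {C : ℕ} (h : Quad V C) (hD : ¬ FinCent D) {a : D}
    (ha : Transcendental k a) :
    ∃ κ, ∀ l n N, 1 ≤ l → 1 ≤ n → ∀ y : Fin N → D, LinearIndependent (gen k a) y →
      (∀ j, y j ∈ V ^ n) → l * N ≤ C * (κ * l + n) ^ 2 := by
  obtain ⟨κ, hκ⟩ := h.denominators hD ha
  refine ⟨κ, fun l n N hl hn y hy hyV => ?_⟩
  obtain ⟨w, hw0, hw⟩ := hκ l hl
  exact h.count ha hw0 hw (by omega) y hy hyV

/-- linear growth over `k(a)` -/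
theorem Quad.linear {V : Submodule k D} {C : ℕ} (h : Quad V C) (hD : ¬ FinCent D) {a : D}
    (ha : Transcendental k a) :
    ∃ B, ∀ n N, 1 ≤ n → ∀ y : Fin N → D, LinearIndependent (gen k a) y →
      (∀ j, y j ∈ V ^ n) → N ≤ B * n := by
  obtain ⟨κ, hκ⟩ := h.count2 hD ha
  refine ⟨C * (κ + 1) ^ 2, fun n N hn y hy hyV => ?_⟩
  have h1 := hκ n n N hn hn y hy hyV
  have h2 : C * (κ * n + n) ^ 2 = n * (C * (κ + 1) ^ 2 * n) := by ring
  rw [h2] at h1
  exact Nat.le_of_mul_le_mul_left h1 (by omega)

/-- A division subring `L` of infinite codimension containing `k(a)` has bounded degree. -/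
theorem Quad.bounded_of_not_finite {V : Submodule k D} {C : ℕ} (h : Quad V C) {a : D} {B : ℕ}
    (hB : ∀ n N, 1 ≤ n → ∀ y : Fin N → D, LinearIndependent (gen k a) y →
      (∀ j, y j ∈ V ^ n) → N ≤ B * n) (L : Subfield D) (hL : gen k a ≤ L)
    (hLf : ¬ Module.Finite L D) (N : ℕ) (x : Fin N → D) (hx : LinearIndependent (gen k a) x)
    (hxL : ∀ i, x i ∈ L) : N ≤ B := by
  obtain ⟨m, v, hv0, hv, hxv⟩ := h.commonDen N x
  by_contra hN
  push Not at hN
  let n := B * m + B + 1
  obtain ⟨z, hz, hzi⟩ := h.exists_indep L (fun c => hL (algebraMap_mem_gen a c)) hLf v hv0 n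
  have h1 := indep_mul hL x hx hxL (fun j => v * z j) hzi
  have h2 := h1.comp finProdFinEquiv.symm finProdFinEquiv.symm.injective
  have h3 := hB (m + n) (N * (n + 1)) (by omega) _ h2 (by
    intro j
    simp only [Function.comp_apply]
    rw [← mul_assoc]
    exact Quad.mul_mem (hxv _) (hz _))
  have h4 : (B + 1) * (n + 1) ≤ N * (n + 1) := Nat.mul_le_mul_right _ hN
  have h5 : (B + 1) * (n + 1) = B * n + B + n + 1 := by ring
  have h6 : B * (m + n) = B * m + B * n := by ring
  omega

/-- A central transcendental element forces finite dimension over the centre. -/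
theorem Quad.finCent_of_central {V : Submodule k D} {C : ℕ} (h : Quad V C) {z : D}
    (hz : z ∈ Subring.center D) (hzt : Transcendental k z) : FinCent D := by
  classical
  by_contra hD
  obtain ⟨B, hB⟩ := h.linear hD hzt
  have hK₀ : ∀ c ∈ gen k z, ∀ y : D, c * y = y * c := by
    intro c hc y
    have h1 : gen k z ≤ cent y := gen_le_cent ((Subring.mem_center_iff.mp hz y).symm)
    exact h1 hc
  -- commutative subfields containing `k(z)` with `N` independent elements
  let P : ℕ → Prop := fun N => ∃ L : Subfield D, gen k z ≤ L ∧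
    (∀ x ∈ L, ∀ y ∈ L, x * y = y * x) ∧
    ∃ x : Fin N → D, LinearIndependent (gen k z) x ∧ ∀ i, x i ∈ L
  have hP0 : P 0 := ⟨gen k z, le_rfl, gen_commutative z, Fin.elim0, linearIndependent_empty_type,
    fun i => i.elim0⟩
  have hPB : ∀ N, P N → N ≤ B := by
    rintro N ⟨L, hL, hLc, x, hx, hxL⟩
    exact h.bounded_of_not_finite hB L hL (fun hf => hD (finCent_of_comm L hLc hf)) N x hx hxL
  obtain ⟨M, hM, hMmax⟩ : ∃ M, P M ∧ ∀ N, P N → N ≤ M := by
    let M := Nat.findGreatest P B
    refine ⟨M, Nat.findGreatest_spec (Nat.zero_le B) hP0, ?_⟩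
    intro N hN
    exact Nat.le_findGreatest (hPB N hN) hN
  obtain ⟨L, hL, hLc, x, hx, hxL⟩ := hM
  have hspan : ∀ y ∈ L, y ∈ Submodule.span (gen k z) (Set.range x) := by
    intro y hy
    by_contra hny
    have h1 : LinearIndependent (gen k z) (Fin.cons y x : Fin (M + 1) → D) :=
      linearIndependent_finCons.mpr ⟨hx, hny⟩
    have h2 := hMmax (M + 1) ⟨L, hL, hLc, Fin.cons y x, h1, by
      intro i
      refine Fin.cases ?_ ?_ i
      · exact hy
      · intro j; exact hxL j⟩
    omega
  have hself : ∀ c : D, (∀ y ∈ L, y * c = c * y) → c ∈ L := by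
    intro c hc
    by_contra hcL
    have hny : c ∉ Submodule.span (gen k z) (Set.range x) := by
      intro hmem
      apply hcL
      refine Submodule.span_induction (p := fun y _ => y ∈ L) ?_ ?_ ?_ ?_ hmem
      · rintro _ ⟨i, rfl⟩; exact hxL i
      · exact L.zero_mem
      · intro a b _ _ ha hb; exact L.add_mem ha hb
      · intro a b _ hb
        exact L.mul_mem (hL a.2) hb
    have h1 : LinearIndependent (gen k z) (Fin.cons c x : Fin (M + 1) → D) :=
      linearIndependent_finCons.mpr ⟨hx, hny⟩
    let L' : Subfield D := Subfield.closure (insert c (L : Set D))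
    have hLL' : L ≤ L' := fun y hy => Subfield.subset_closure (Set.mem_insert_of_mem _ hy)
    have hcL' : c ∈ L' := Subfield.subset_closure (Set.mem_insert _ _)
    have hle : ∀ t : D, (∀ y ∈ L, y * t = t * y) → c * t = t * c → L' ≤ cent t := by
      intro t ht hct
      apply Subfield.closure_le.mpr
      intro y hy
      rcases hy with rfl | hy
      · exact hct
      · exact ht y hy
    have hL'c : ∀ x ∈ L', ∀ y ∈ L', x * y = y * x := by
      intro s hs t ht
      apply hle t _ _ hs
      · intro y hy
        have := hle y (fun y' hy' => hLc y' hy' y hy) (hc y hy).symm ht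
        exact (mem_cent.mp this).symm
      · have := hle c hc rfl ht
        exact (mem_cent.mp this).symm
    have h2 := hMmax (M + 1) ⟨L', hL.trans hLL', hL'c, Fin.cons c x, h1, by
      intro i
      refine Fin.cases ?_ ?_ i
      · exact hcL'
      · intro j; exact hLL' (hxL j)⟩
    omega
  exact hD (finCent_of_comm L hLc (finite_over_selfcent hK₀ hself x hspan))

end Pool.Agent.BQG
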