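import Pool.Agent.H.MP_fbbc72_al.h41.Core7

/-! Elements whose centralizer has finite codimension; uniform bound for centralizers. -/

namespace Pool.Agent.BQG

open Module

variable {k D : Type*} [Field k] [DivisionRing D] [Algebra k D]

theorem exists_central_transc {b : D} (hb : Transcendental k b)
    (hfin : Module.Finite (cent b) D) : ∃ z ∈ Subring.center D, Transcendental k z := by
  classical
  by_contra hcon
  push Not at hcon
  obtain ⟨n, z, hz, hbz⟩ := algebraic_of_finite_cent b hfin
  have hn : 0 < n := by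
    by_contra h0
    have : n = 0 := by omega
    subst this
    simp at hbz
  have halg : ∀ i, IsIntegral k (z i) := by
    intro i
    have h1 := hcon (z i) (hz i)
    rw [Transcendental, not_not] at h1
    exact h1.isIntegral
  let A := Subalgebra.center k D
  have hzA : ∀ i, z i ∈ A := by
    intro i
    rw [Subalgebra.mem_center_iff]
    intro y
    exact Subring.mem_center_iff.mp (hz i) y
  let ζ : ℕ → A := fun i => ⟨z i, hzA i⟩
  have hζ : ∀ i, IsIntegral k (ζ i) := by
    intro i
    exact (isIntegral_algHom_iff A.val Subtype.val_injective).mp (halg i)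
  let S : Set A := ζ '' (Set.Iio n)
  have hS : S.Finite := (Set.finite_Iio n).image ζ
  have hfg : (Subalgebra.toSubmodule (Algebra.adjoin k S)).FG :=
    fg_adjoin_of_finite hS (by
      rintro _ ⟨i, -, rfl⟩
      exact hζ i)
  let W₀ : Submodule k D := (Subalgebra.toSubmodule (Algebra.adjoin k S)).map
    A.val.toLinearMap
  have hW₀ : W₀.FG := hfg.map _
  have h1W₀ : (1 : D) ∈ W₀ := ⟨1, Subalgebra.one_mem _, rfl⟩
  have hmulW₀ : ∀ i < n, ∀ w ∈ W₀, z i * w ∈ W₀ := by
    rintro i hi _ ⟨w, hw, rfl⟩
    refine ⟨ζ i * w, Subalgebra.mul_mem _ (Algebra.subset_adjoin ⟨i, hi, rfl⟩) hw, rfl⟩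
  let W : Submodule k D := ⨆ i : Fin n, W₀.map (LinearMap.mulLeft k (b ^ (i : ℕ)))
  have hW : W.FG := Submodule.fg_iSup _ (fun i => hW₀.map _)
  have hmemW : ∀ i < n, ∀ w ∈ W₀, b ^ i * w ∈ W := by
    intro i hi w hw
    exact Submodule.mem_iSup_of_mem (⟨i, hi⟩ : Fin n) ⟨w, hw, rfl⟩
  have hbW : ∀ x ∈ W, b * x ∈ W := by
    intro x hx
    refine Submodule.iSup_induction (p := fun i : Fin n =>
      W₀.map (LinearMap.mulLeft k (b ^ (i : ℕ)))) (motive := fun x => b * x ∈ W) hx ?_ ?_ ?_
    · rintro i _ ⟨w, hw, rfl⟩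
      change b * (b ^ (i : ℕ) * w) ∈ W
      rw [← mul_assoc, ← pow_succ']
      by_cases hi : (i : ℕ) + 1 < n
      · exact hmemW _ hi w hw
      · have hin : (i : ℕ) + 1 = n := by have := i.2; omega
        rw [hin]
        have h1 : b ^ n * w = -∑ j ∈ Finset.range n, b ^ j * (z j * w) := by
          have h2 : b ^ n = -∑ j ∈ Finset.range n, b ^ j * z j := eq_neg_of_add_eq_zero_left hbz
          rw [h2, neg_mul, Finset.sum_mul]
          simp only [mul_assoc]
        rw [h1]
        apply Submodule.neg_mem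
        apply Submodule.sum_mem
        intro j hj
        exact hmemW j (Finset.mem_range.mp hj) _ (hmulW₀ j (Finset.mem_range.mp hj) w hw)
    · simp
    · intro x y hx hy
      rw [mul_add]; exact Submodule.add_mem _ hx hy
  have hpow : ∀ j, b ^ j ∈ W := by
    intro j
    induction j with
    | zero =>
      have := hmemW 0 hn 1 h1W₀
      rwa [mul_one] at this
    | succ j ih =>
      rw [pow_succ']
      exact hbW _ ih
  have hfd : FiniteDimensional k W := Module.Finite.iff_fg.mpr hW
  have h2 : LinearIndependent k (fun j : Fin (finrank k W + 1) =>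
      (⟨b ^ (j : ℕ), hpow j⟩ : W)) := by
    apply LinearIndependent.of_comp W.subtype
    exact (indep_pow hb).comp _ Fin.val_injective
  have h3 := h2.fintype_card_le_finrank
  rw [Fintype.card_fin] at h3
  omega

/-- The centralizer of a transcendental element has infinite codimension. -/
theorem Quad.not_finite_cent {V : Submodule k D} {C : ℕ} (h : Quad V C) (hD : ¬ FinCent D)
    {b : D} (hb : Transcendental k b) : ¬ Module.Finite (cent b) D := by
  intro hf
  obtain ⟨z, hz, hzt⟩ := exists_central_transc hb hf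
  exact hD (h.finCent_of_central hz hzt)

theorem transc_pow {a : D} (ha : Transcendental k a) {e : ℕ} (he : 1 ≤ e) :
    Transcendental k (a ^ e) := by
  intro h1
  exact ha (IsAlgebraic.of_pow (by omega) h1)

/-- Uniform bound: `C(a^e)` has dimension at most `γ` over `k(a)`, for all `e`. -/
theorem Quad.centBound {V : Submodule k D} {C : ℕ} (h : Quad V C) (hD : ¬ FinCent D) {a : D}
    (ha : Transcendental k a) :
    ∃ γ, ∀ e, 1 ≤ e → ∀ (N : ℕ) (x : Fin N → D), LinearIndependent (gen k a) x →
      (∀ i, x i ∈ cent (a ^ e)) → N ≤ γ := by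
  obtain ⟨B, hB⟩ := h.linear hD ha
  refine ⟨B, fun e he N x hx hxc => ?_⟩
  refine h.bounded_of_not_finite hB (cent (a ^ e)) (gen_le_cent ?_)
    (h.not_finite_cent hD (transc_pow ha he)) N x hx hxc
  rw [← pow_succ, ← pow_succ']

end Pool.Agent.BQG
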