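import Pool.Agent.H.MP_fbbc72_al.h41.Core8
import Pool.Agent.H.MP_fbbc72_al.h41.Bideg

/-! The two-sided action of `k[X][Y]` and the Frobenius trick. -/

namespace Pool.Agent.BQG

open Module Polynomial

variable {k D : Type*} [Field k] [DivisionRing D] [Algebra k D]

theorem aeval_mulLeft (a : D) (p : k[X]) :
    aeval (LinearMap.mulLeft k a) p = LinearMap.mulLeft k (aeval a p) := by
  induction p using Polynomial.induction_on' with
  | add p q hp hq =>
    rw [map_add, map_add, hp, hq]
    ext x
    simp [add_mul]
  | monomial n c =>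
    rw [aeval_monomial, aeval_monomial]
    ext x
    simp [Algebra.smul_def, Module.algebraMap_end_apply]

theorem comm_left_right (a : D) (p : k[X]) :
    Commute ((aeval (LinearMap.mulLeft k a)).toRingHom p) (LinearMap.mulRight k a) := by
  change aeval (LinearMap.mulLeft k a) p * LinearMap.mulRight k a =
    LinearMap.mulRight k a * aeval (LinearMap.mulLeft k a) p
  rw [aeval_mulLeft]
  ext x
  simp [mul_assoc]

/-- `Phi a P x = ∑ c_{ij} a^i x a^j`. -/
noncomputable def Phi (a : D) : k[X][X] →+* Module.End k D :=
  eval₂RingHom' (aeval (LinearMap.mulLeft k a)).toRingHom (LinearMap.mulRight k a)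
    (comm_left_right a)

theorem Phi_monomial (a : D) (n : ℕ) (p : k[X]) (x : D) :
    Phi a (monomial n p) x = aeval a p * x * a ^ n := by
  change eval₂ (aeval (LinearMap.mulLeft k a)).toRingHom (LinearMap.mulRight k a)
    (monomial n p) x = _
  rw [eval₂_monomial]
  change (aeval (LinearMap.mulLeft k a) p * (LinearMap.mulRight k a) ^ n) x = _
  rw [aeval_mulLeft, LinearMap.pow_mulRight]
  simp [mul_assoc]

theorem Phi_apply (a : D) (P : k[X][X]) (x : D) :
    Phi a P x = ∑ j ∈ P.support, aeval a (P.coeff j) * x * a ^ j := by
  conv_lhs => rw [P.as_sum_support]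
  rw [map_sum, LinearMap.sum_apply]
  apply Finset.sum_congr rfl
  intro j _
  exact Phi_monomial a j _ x

/-- the operators are left linear over anything commuting with `a` -/
theorem Phi_smul (a : D) (P : k[X][X]) {c : D} (hc : c ∈ cent a) (x : D) :
    Phi a P (c * x) = c * Phi a P x := by
  rw [Phi_apply, Phi_apply, Finset.mul_sum]
  apply Finset.sum_congr rfl
  intro j _
  have h1 : Commute c (aeval a (P.coeff j)) := by
    have h2 : aeval a (P.coeff j) ∈ cent c := by
      have h3 : gen k a ≤ cent c := gen_le_cent (mem_cent.mp hc).symm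
      apply h3
      have h4 : ∀ p : k[X], aeval a p ∈ gen k a := by
        intro p
        induction p using Polynomial.induction_on' with
        | add p q hp hq => rw [map_add]; exact Subfield.add_mem _ hp hq
        | monomial n c =>
          rw [aeval_monomial]
          exact Subfield.mul_mem _ (algebraMap_mem_gen a c) (pow_mem_gen a n)
      exact h4 _
    exact (mem_cent.mp h2).symm
  rw [← mul_assoc (aeval a (P.coeff j)), ← h1.eq]
  simp only [mul_assoc]

theorem Phi_smul_right (a : D) (P : k[X][X]) {c : D} (hc : c ∈ cent a) (x : D) :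
    Phi a P (x * c) = Phi a P x * c := by
  rw [Phi_apply, Phi_apply, Finset.sum_mul]
  apply Finset.sum_congr rfl
  intro j _
  have h1 : Commute c (a ^ j) := by
    have h2 : Commute c a := mem_cent.mp hc
    exact h2.pow_right j
  have h3 : c * a ^ j = a ^ j * c := h1.eq
  simp only [mul_assoc]
  rw [h3]

theorem expand_card_pow [Fintype k] (j : ℕ) (f : k[X]) :
    expand k (Fintype.card k ^ j) f = f ^ (Fintype.card k ^ j) := by
  induction j generalizing f with
  | zero => simp
  | succ j ih =>
    rw [pow_succ, ← expand_expand, ih, FiniteField.expand_card, ← pow_mul, mul_comm]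

theorem Phi_frob [Fintype k] (a : D) (P : k[X][X]) (j : ℕ) :
    (Phi a P) ^ (Fintype.card k ^ j) = Phi (a ^ (Fintype.card k ^ j)) P := by
  obtain ⟨p, hp⟩ := CharP.exists k
  obtain ⟨⟨n, npos⟩, hp', hn⟩ := FiniteField.card k p
  have hprime : Fact p.Prime := ⟨hp'⟩
  have hcar : Fintype.card k ^ j = p ^ (n * j) := by
    rw [hn, ← pow_mul]
    rfl
  have hchar : CharP (Module.End k D) p := by
    have : Nontrivial D := inferInstance
    exact charP_of_injective_algebraMap (algebraMap k (Module.End k D)).injective p
  induction P using Polynomial.induction_on' with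
  | add P Q hP hQ =>
    rw [map_add, map_add, ← hP, ← hQ]
    have hc : Commute (Phi a P) (Phi a Q) := by
      change Phi a P * Phi a Q = Phi a Q * Phi a P
      rw [← map_mul, ← map_mul, mul_comm]
    rw [hcar]
    exact add_pow_char_pow_of_commute p (n * j) hc
  | monomial m f =>
    set Q := Fintype.card k ^ j with hQ
    rw [← map_pow, monomial_pow]
    ext x
    rw [Phi_monomial, Phi_monomial, ← expand_card_pow, ← hQ, expand_aeval]
    congr 1
    rw [← pow_mul, mul_comm]

end Pool.Agent.BQG
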